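import Mathlib

namespace Pool.Agent.Lib.MP_dd8a4a_al

open LieAlgebra

/-- A cyclic grading with trivial zero component, given by its projections. -/
structure Gr (k : ℕ) [NeZero k] (A L : Type*) [CommRing A] [LieRing L] [LieAlgebra A L] where
  pr : ZMod k → L →ₗ[A] L
  sum : ∀ x, ∑ t, pr t x = x
  orth : ∀ s t x, s ≠ t → pr s (pr t x) = 0
  mul : ∀ a b x y, pr a x = x → pr b y = y → pr (a + b) ⁅x, y⁆ = ⁅x, y⁆
  zero : ∀ x, pr 0 x = 0

variable {k : ℕ} [NeZero k] {A L : Type*} [CommRing A] [LieRing L] [LieAlgebra A L]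

namespace Gr

variable (g : Gr k A L)

theorem idem (t : ZMod k) (x : L) : g.pr t (g.pr t x) = g.pr t x := by
  conv_rhs => rw [← g.sum x]
  rw [map_sum, Finset.sum_eq_single t]
  · intro b _ hb
    exact g.orth _ _ _ (Ne.symm hb)
  · intro h
    exact absurd (Finset.mem_univ t) h

theorem pr_lie (s t : ZMod k) (h c : L) (hc : g.pr t c = c) :
    g.pr s ⁅h, c⁆ = ⁅g.pr (s - t) h, c⁆ := by
  conv_lhs => rw [← g.sum h]
  rw [sum_lie, map_sum, Finset.sum_eq_single (s - t)]
  · have := g.mul (s - t) t _ _ (g.idem _ h) hc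
    rwa [sub_add_cancel] at this
  · intro b _ hb
    rw [← g.mul b t _ _ (g.idem _ h) hc]
    apply g.orth
    intro e
    apply hb
    rw [e]
    ring
  · intro h
    exact absurd (Finset.mem_univ _) h

end Gr

/-- span of brackets -/
def dS (H : Submodule A L) : Submodule A L :=
  Submodule.span A {z | ∃ x ∈ H, ∃ y ∈ H, ⁅x, y⁆ = z}

def Good (g : Gr k A L) (H : Submodule A L) : Prop :=
  (∀ x ∈ H, ∀ y ∈ H, ⁅x, y⁆ ∈ H) ∧ ∀ t, ∀ x ∈ H, g.pr t x ∈ H

theorem dS_le {g : Gr k A L} {H : Submodule A L} (h : Good g H) : dS H ≤ H := by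
  apply Submodule.span_le.mpr
  rintro _ ⟨x, hx, y, hy, rfl⟩
  exact h.1 x hx y hy

theorem lie_mem_dS {H : Submodule A L} {x y : L} (hx : x ∈ H) (hy : y ∈ H) : ⁅x, y⁆ ∈ dS H :=
  Submodule.subset_span ⟨x, hx, y, hy, rfl⟩

theorem good_dS {g : Gr k A L} {H : Submodule A L} (h : Good g H) : Good g (dS H) := by
  refine ⟨fun x hx y hy => lie_mem_dS (dS_le h hx) (dS_le h hy), fun t x hx => ?_⟩
  have : dS H ≤ (dS H).comap (g.pr t) := by
    apply Submodule.span_le.mpr
    rintro _ ⟨x, hx, y, hy, rfl⟩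
    show g.pr t ⁅x, y⁆ ∈ dS H
    rw [← g.sum y, lie_sum, map_sum]
    apply Submodule.sum_mem
    intro u _
    rw [g.pr_lie t u x _ (g.idem u y)]
    exact lie_mem_dS (h.2 _ _ hx) (h.2 _ _ hy)
  exact this hx

theorem good_iter {g : Gr k A L} {H : Submodule A L} (h : Good g H) (j : ℕ) :
    Good g (dS^[j] H) ∧ dS^[j] H ≤ H := by
  induction j with
  | zero => exact ⟨h, le_rfl⟩
  | succ j ih =>
    rw [Function.iterate_succ_apply']
    exact ⟨good_dS ih.1, (dS_le ih.1).trans ih.2⟩

def gen (g : Gr k A L) (H : Submodule A L) (s : ℕ) : LieSubalgebra A L :=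
  LieSubalgebra.lieSpan A L {x | x ∈ H ∧ ∃ u : ZMod k, s < u.val ∧ g.pr u x = x}

/-- Kreknin bound -/
def kr : ℕ → ℕ
  | 0 => 0
  | s + 1 => kr s + (kr s + 1)

theorem kreknin_aux (g : Gr k A L) (s : ℕ) :
    ∀ H : Submodule A L, Good g H → ∀ x ∈ dS^[kr s] H, x ∈ gen g H s := by
  induction s with
  | zero =>
    intro H hH x hx
    have hx : x ∈ H := hx
    rw [← g.sum x]
    apply sum_mem
    intro u _
    by_cases hu : u = 0
    · rw [hu, g.zero]
      exact zero_mem _
    · apply LieSubalgebra.subset_lieSpan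
      exact ⟨hH.2 _ _ hx, u, Nat.pos_of_ne_zero (by simpa using hu), g.idem _ _⟩
  | succ s ih =>
    intro H hH x hx
    have e : dS^[kr (s + 1)] H = dS^[kr s] (dS (dS^[kr s] H)) := by
      rw [kr, Function.iterate_add_apply, Function.iterate_succ_apply']
    rw [e] at hx
    obtain ⟨h0, h0le⟩ := good_iter hH (kr s)
    have h1 := good_dS h0
    have hx1 := ih _ h1 x hx
    set W : Submodule A L := Submodule.span A
      {z | ∃ h ∈ H, ∃ c ∈ H, (∃ t : ZMod k, s < t.val ∧ g.pr t c = c) ∧ ⁅h, c⁆ = z} with hW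
    have hgen : ∀ z ∈ gen g H s, z ∈ H ∧ ∀ h ∈ H, ⁅h, z⁆ ∈ W := by
      intro z hz
      induction hz using LieSubalgebra.lieSpan_induction with
      | mem y hy => exact ⟨hy.1, fun h hh => Submodule.subset_span ⟨h, hh, y, hy.1, hy.2, rfl⟩⟩
      | zero => exact ⟨zero_mem _, fun h _ => by simp⟩
      | add a b _ _ ha hb =>
        exact ⟨add_mem ha.1 hb.1, fun h hh => by
          rw [lie_add]; exact add_mem (ha.2 h hh) (hb.2 h hh)⟩
      | smul c a _ ha =>
        exact ⟨H.smul_mem c ha.1, fun h hh => by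
          rw [lie_smul]; exact W.smul_mem c (ha.2 h hh)⟩
      | lie a b _ _ ha hb =>
        refine ⟨hH.1 _ ha.1 _ hb.1, fun h hh => ?_⟩
        have : ⁅h, ⁅a, b⁆⁆ = ⁅⁅h, a⁆, b⁆ - ⁅⁅h, b⁆, a⁆ := by
          rw [leibniz_lie h a b, ← lie_skew a, sub_eq_add_neg]
        rw [this]
        exact sub_mem (hb.2 _ (hH.1 _ hh _ ha.1)) (ha.2 _ (hH.1 _ hh _ hb.1))
    have hle : dS (dS^[kr s] H) ≤ W := by
      apply Submodule.span_le.mpr
      rintro _ ⟨a, ha, b, hb, rfl⟩
      exact (hgen b (ih H hH b hb)).2 a (h0le ha)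
    have hmono : gen g (dS (dS^[kr s] H)) s ≤ gen g H (s + 1) := by
      apply LieSubalgebra.lieSpan_le.mpr
      rintro y ⟨hy, u, hu, huy⟩
      by_cases hu' : s + 1 < u.val
      · exact LieSubalgebra.subset_lieSpan ⟨h0le (dS_le h0 hy), u, hu', huy⟩
      · have hus : u.val = s + 1 := by omega
        have : W ≤ (gen g H (s + 1)).toSubmodule.comap (g.pr u) := by
          apply Submodule.span_le.mpr
          rintro _ ⟨h, hh, c, hc, ⟨t, ht, htc⟩, rfl⟩
          show g.pr u ⁅h, c⁆ ∈ gen g H (s + 1)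
          rw [g.pr_lie u t h c htc]
          by_cases htu : t = u
          · rw [htu, sub_self, g.zero, zero_lie]
            exact zero_mem _
          · have hv : t.val ≠ u.val := fun e => htu (ZMod.val_injective k e)
            have htk := ZMod.val_lt t
            have h2 : s + 1 < (u - t).val := by
              have e1 : (u - t) + t = u := by ring
              by_cases hlt : (u - t).val + t.val < k
              · have := ZMod.val_add_of_lt hlt
                rw [e1] at this
                omega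
              · have := ZMod.val_add_of_le (not_lt.mp hlt)
                rw [e1] at this
                omega
            apply LieSubalgebra.lie_mem
            · exact LieSubalgebra.subset_lieSpan ⟨hH.2 _ _ hh, u - t, h2, g.idem _ _⟩
            · exact LieSubalgebra.subset_lieSpan ⟨hc, t, by omega, htc⟩
        have h3 := this (hle hy)
        rw [Submodule.mem_comap, huy] at h3
        exact h3
    exact hmono hx1

theorem derivedSeries_le_iter (j : ℕ) :
    (derivedSeries A L j).toSubmodule ≤ dS^[j] (⊤ : Submodule A L) := by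
  induction j with
  | zero => exact le_top
  | succ j ih =>
    rw [Function.iterate_succ_apply', derivedSeries_def, derivedSeriesOfIdeal_succ,
      LieSubmodule.lieIdeal_oper_eq_linear_span']
    apply Submodule.span_le.mpr
    rintro _ ⟨x, hx, y, hy, rfl⟩
    exact lie_mem_dS (ih hx) (ih hy)

/-- Kreknin's theorem -/
theorem kreknin (g : Gr k A L) : derivedSeries A L (kr k) = ⊥ := by
  rw [eq_bot_iff]
  intro x hx
  have h1 := kreknin_aux g k ⊤ ⟨fun _ _ _ _ => trivial, fun _ _ _ => trivial⟩ x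
    (derivedSeries_le_iter _ hx)
  have : gen g ⊤ k ≤ ⊥ := by
    apply LieSubalgebra.lieSpan_le.mpr
    rintro y ⟨_, u, hu, _⟩
    have := ZMod.val_lt u
    omega
  simpa using this h1

end Pool.Agent.Lib.MP_dd8a4a_al
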