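import Mathlib

namespace Pool.Agent.Lib.MP_dd8a4a_al

open LieAlgebra

theorem ring_aux0 {R : Type*} [Ring R] (a b d : R) (hd : d = a * b - b * a) (h1 : Commute a d)
    (s : ℕ) : a ^ (s + 1) * b - b * a ^ (s + 1) = ((s + 1 : ℕ) : R) * (d * a ^ s) := by
  induction s with
  | zero => simp [hd]
  | succ s ih =>
    have e : a ^ (s + 1 + 1) * b - b * a ^ (s + 1 + 1)
        = a * (a ^ (s + 1) * b - b * a ^ (s + 1)) + (a * b - b * a) * a ^ (s + 1) := by
      rw [pow_succ' a (s + 1)]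
      noncomm_ring
    rw [e, ih, ← hd, ← mul_assoc a, ← (Nat.cast_commute (s + 1) a).eq, mul_assoc,
      ← mul_assoc a d, h1.eq, mul_assoc d, ← pow_succ']
    push_cast
    noncomm_ring

theorem ring_aux {R : Type*} [Ring R] (a b d : R) (hd : d = a * b - b * a) (h1 : Commute a d)
    (h2 : Commute b d) (s : ℕ) : ∀ (i c : ℕ), (c : R) * (d ^ i * a ^ s) = 0 →
      ((c * s.factorial : ℕ) : R) * d ^ (i + s) = 0 := by
  induction s with
  | zero => intro i c h; simpa using h
  | succ s ih =>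
    intro i c h
    have h3 : ((c * (s + 1) : ℕ) : R) * (d ^ (i + 1) * a ^ s) = 0 := by
      have e1 : (c : R) * (d ^ i * a ^ (s + 1)) * b - b * ((c : R) * (d ^ i * a ^ (s + 1)))
          = (c : R) * (d ^ i * (a ^ (s + 1) * b - b * a ^ (s + 1))) := by
        rw [← mul_assoc b, ← (Nat.cast_commute c b).eq, mul_assoc (c : R) b, ← mul_assoc b,
          (h2.pow_right i).eq]
        noncomm_ring
      rw [h, ring_aux0 a b d hd h1 s, ← mul_assoc (d ^ i),
        ← (Nat.cast_commute (s + 1) (d ^ i)).eq] at e1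
      rw [Nat.cast_mul, pow_succ]
      simp only [mul_assoc] at e1 ⊢
      rw [← e1]
      simp
    have := ih (i + 1) (c * (s + 1)) h3
    rw [Nat.factorial_succ, ← mul_assoc]
    rwa [show i + (s + 1) = i + 1 + s by ring]

variable {A L : Type*} [CommRing A] [LieRing L] [LieAlgebra A L]

/-- elements mapping `I` into `J` -/
def Ann (I J : LieIdeal A L) : LieIdeal A L where
  carrier := {x | ∀ v ∈ I, ⁅x, v⁆ ∈ J}
  add_mem' := fun {a b} ha hb v hv => by rw [add_lie]; exact add_mem (ha v hv) (hb v hv)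
  zero_mem' := fun v _ => by simp
  smul_mem' := fun c a ha v hv => by rw [smul_lie]; exact J.smul_mem c (ha v hv)
  lie_mem := fun {l x} hx v hv => by
    rw [lie_lie]
    exact sub_mem (J.lie_mem (hx v hv)) (hx _ (I.lie_mem hv))

theorem mem_Ann {I J : LieIdeal A L} {x : L} : x ∈ Ann I J ↔ ∀ v ∈ I, ⁅x, v⁆ ∈ J := Iff.rfl

/-- iterated bracket with the whole algebra -/
def lc (I : LieIdeal A L) : ℕ → LieIdeal A L
  | 0 => I
  | n + 1 => ⁅(⊤ : LieIdeal A L), lc I n⁆

/-- commutators in the generators -/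
def Cm (Y : List L) : ℕ → List L
  | 0 => Y
  | w + 1 => Y.flatMap fun y => (Cm Y w).map fun x => ⁅y, x⁆

theorem length_Cm (Y : List L) (w : ℕ) : (Cm Y w).length = Y.length ^ (w + 1) := by
  induction w with
  | zero => simp [Cm]
  | succ w ih => simp [Cm, List.length_flatMap, ih, pow_succ, mul_comm]

theorem mem_Cm_succ {Y : List L} {w : ℕ} {z : L} :
    z ∈ Cm Y (w + 1) ↔ ∃ y ∈ Y, ∃ x ∈ Cm Y w, ⁅y, x⁆ = z := by
  simp [Cm]

theorem Cm_mem_lcs (Y : List L) (w : ℕ) : ∀ z ∈ Cm Y w, z ∈ lc (⊤ : LieIdeal A L) w := by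
  induction w with
  | zero => intro z _; trivial
  | succ w ih =>
    intro z hz
    obtain ⟨y, _, x, hx, rfl⟩ := mem_Cm_succ.mp hz
    rw [lc]
    exact LieSubmodule.lie_mem_lie trivial (ih x hx)

theorem central_of_gen {Y : List L} (hY : LieSubalgebra.lieSpan A L {y | y ∈ Y} = ⊤)
    (N : LieIdeal A L) (z : L) (h : ∀ y ∈ Y, ⁅y, z⁆ ∈ N) (l : L) : ⁅l, z⁆ ∈ N := by
  have hl : l ∈ LieSubalgebra.lieSpan A L {y | y ∈ Y} := by rw [hY]; trivial
  induction hl using LieSubalgebra.lieSpan_induction with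
  | mem y hy => exact h y hy
  | zero => simp
  | add a b _ _ ha hb => rw [add_lie]; exact add_mem ha hb
  | smul c a _ ha => rw [smul_lie]; exact N.smul_mem c ha
  | lie a b _ _ ha hb => rw [lie_lie]; exact sub_mem (N.lie_mem hb) (N.lie_mem ha)

theorem mem_of_gen {Y : List L} (hY : LieSubalgebra.lieSpan A L {y | y ∈ Y} = ⊤)
    (N : LieIdeal A L) (h : ∀ y ∈ Y, y ∈ N) (l : L) : l ∈ N := by
  have hl : l ∈ LieSubalgebra.lieSpan A L {y | y ∈ Y} := by rw [hY]; trivial
  induction hl using LieSubalgebra.lieSpan_induction with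
  | mem y hy => exact h y hy
  | zero => simp
  | add a b _ _ ha hb => exact add_mem ha hb
  | smul c a _ ha => exact N.smul_mem c ha
  | lie a b _ _ ha hb => exact N.lie_mem hb

attribute [local instance 100] LieRing.ofAssociativeRing

theorem key_pow (I J : LieIdeal A L) (m : ℕ) (c : A)
    (hc : ∀ x : L, c • (m.factorial : A) • x = x) (y x : L) (hy : ad A L y ^ m = 0)
    (hz : ∀ l : L, ⁅l, ⁅y, x⁆⁆ ∈ Ann I J) : ∀ v ∈ I, (ad A L ⁅y, x⁆ ^ m) v ∈ J := by
  let N : LieSubmodule A L I := LieSubmodule.comap (LieSubmodule.incl I) J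
  let ρ := LieModule.toEnd A L (I ⧸ N)
  have hpow : ∀ (z : L) (i : ℕ) (v : I), ∃ v' : I, (v' : L) = (ad A L z ^ i) v ∧
      (ρ z ^ i) (LieSubmodule.Quotient.mk' N v) = LieSubmodule.Quotient.mk' N v' := by
    intro z i v
    induction i with
    | zero => exact ⟨v, by simp, by simp⟩
    | succ i ih =>
      obtain ⟨v', h1, h2⟩ := ih
      refine ⟨⁅z, v'⁆, ?_, ?_⟩
      · rw [pow_succ', Module.End.mul_apply, ← h1]
        simp
      · rw [pow_succ', Module.End.mul_apply, h2]
        simp [ρ]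
  have hzero : ∀ z ∈ Ann I J, ρ z = 0 := by
    intro z hz
    ext q
    obtain ⟨v, rfl⟩ := LieSubmodule.Quotient.surjective_mk' N q
    have : ρ z (LieSubmodule.Quotient.mk' N v) = LieSubmodule.Quotient.mk' N ⁅z, v⁆ := by
      simp [ρ]
    rw [this, LinearMap.zero_apply, LieSubmodule.Quotient.mk_eq_zero]
    exact hz v v.2
  have ha : ρ y ^ m = 0 := by
    ext q
    obtain ⟨v, rfl⟩ := LieSubmodule.Quotient.surjective_mk' N q
    obtain ⟨v', h1, h2⟩ := hpow y m v
    rw [h2, LinearMap.zero_apply, LieSubmodule.Quotient.mk_eq_zero]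
    rw [hy] at h1
    have : v' = 0 := Subtype.ext (by simpa using h1)
    rw [this]
    exact zero_mem _
  have hcomm : ∀ l, Commute (ρ l) (ρ ⁅y, x⁆) := by
    intro l
    have := hzero _ (hz l)
    rw [LieHom.map_lie, Ring.lie_def, sub_eq_zero] at this
    exact this
  have hd : ρ ⁅y, x⁆ = ρ y * ρ x - ρ x * ρ y := by rw [LieHom.map_lie, Ring.lie_def]
  have h := ring_aux (ρ y) (ρ x) (ρ ⁅y, x⁆) hd (hcomm y) (hcomm x) m 0 1 (by simp [ha])
  intro v hv
  obtain ⟨v', h1, h2⟩ := hpow ⁅y, x⁆ m ⟨v, hv⟩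
  have h3 := congrArg (fun T => T (LieSubmodule.Quotient.mk' N ⟨v, hv⟩)) h
  simp only [one_mul, zero_add, Module.End.mul_apply, h2, LinearMap.zero_apply,
    Module.End.natCast_apply] at h3
  rw [← map_nsmul, LieSubmodule.Quotient.mk_eq_zero] at h3
  have h4 : (m.factorial • (v' : L)) ∈ J := h3
  rw [← h1, ← hc v', Nat.cast_smul_eq_nsmul]
  exact J.smul_mem c h4

theorem lcs_add' (I : LieIdeal A L) (a b : ℕ) : lc I (a + b) = lc (lc I a) b := by
  induction b with
  | zero => rfl
  | succ b ih => rw [← add_assoc, lc, lc, ih]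

theorem lcs_mono' {I J : LieIdeal A L} (h : I ≤ J) (a : ℕ) : lc I a ≤ lc J a := by
  induction a with
  | zero => exact h
  | succ a ih =>
    rw [lc, lc]
    exact LieSubmodule.mono_lie_right _ ih

theorem strip (Pr : LieIdeal A L → Prop) (hPr : ∀ N N', N ≤ N' → Pr N → Pr N') (z : L)
    (hz : ∀ N, Pr N → ∀ l : L, ⁅l, z⁆ ∈ N) (M : ℕ)
    (hM : ∀ I J : LieIdeal A L, Pr (Ann I J) → z ∈ Ann I J → lc I M ≤ J) (i : ℕ) :
    ∀ I J : LieIdeal A L, Pr (Ann I J) → (∀ v ∈ I, (ad A L z ^ i) v ∈ J) →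
      lc I (i * M) ≤ J := by
  induction i with
  | zero =>
    intro I J _ h v hv
    rw [zero_mul] at hv
    simpa using h v hv
  | succ i ih =>
    intro I J hP h
    let K : LieIdeal A L :=
      { carrier := {v | v ∈ I ∧ ⁅z, v⁆ ∈ J}
        add_mem' := fun {a b} ha hb =>
          ⟨add_mem ha.1 hb.1, by rw [lie_add]; exact add_mem ha.2 hb.2⟩
        zero_mem' := ⟨zero_mem _, by simp⟩
        smul_mem' := fun c a ha => ⟨I.smul_mem c ha.1, by rw [lie_smul]; exact J.smul_mem c ha.2⟩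
        lie_mem := fun {l v} hv => ⟨I.lie_mem hv.1, by
          rw [leibniz_lie, ← lie_skew z l, neg_lie]
          exact add_mem (neg_mem (hz _ hP l v hv.1)) (J.lie_mem hv.2)⟩ }
    have h1 : lc I (i * M) ≤ K := by
      apply ih I K
      · apply hPr _ _ _ hP
        intro x hx v hv
        exact ⟨I.lie_mem hv, J.lie_mem (hx v hv)⟩
      · intro v hv
        refine ⟨?_, ?_⟩
        · clear h ih
          induction i with
          | zero => simpa using hv
          | succ i ih =>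
            rw [pow_succ', Module.End.mul_apply]
            exact I.lie_mem ih
        · have := h v hv
          rwa [pow_succ', Module.End.mul_apply] at this
    have h2 : lc K M ≤ J := by
      apply hM K J
      · apply hPr _ _ _ hP
        intro x hx v hv
        exact hx v hv.1
      · intro v hv
        exact hv.2
    rw [add_mul, one_mul, lcs_add']
    exact (lcs_mono' h1 M).trans h2

def Mf (r m : ℕ) : ℕ → ℕ
  | 0 => 1
  | w + 1 => m ^ (r ^ (w + 1)) * Mf r m w

theorem lemmaQ {Y : List L} (hY : LieSubalgebra.lieSpan A L {y | y ∈ Y} = ⊤) (m : ℕ) (c : A)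
    (hc : ∀ x : L, c • (m.factorial : A) • x = x) (hm : ∀ y ∈ Y, ad A L y ^ m = 0) (w : ℕ) :
    ∀ I J : LieIdeal A L, (∀ z ∈ Cm Y w, z ∈ Ann I J) → lc I (Mf Y.length m w) ≤ J := by
  induction w with
  | zero =>
    intro I J h
    rw [Mf, lc, lc, LieSubmodule.lie_le_iff]
    intro x _
    exact mem_of_gen hY (Ann I J) h x
  | succ w ih =>
    have inner : ∀ Z : List L, (∀ z ∈ Z, z ∈ Cm Y w) → ∀ I J : LieIdeal A L,
        ((∀ x ∈ Cm Y (w + 1), x ∈ Ann I J) ∧ ∀ x ∈ Cm Y w, x ∈ Z ∨ x ∈ Ann I J) →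
        lc I (m ^ Z.length * Mf Y.length m w) ≤ J := by
      intro Z
      induction Z with
      | nil =>
        intro _ I J h
        rw [List.length_nil, pow_zero, one_mul]
        exact ih I J fun z hz => (h.2 z hz).resolve_left (by simp)
      | cons z Z ihZ =>
        intro hZ I J h
        have hzc : z ∈ Cm Y w := hZ z (by simp)
        have hcen : ∀ N : LieIdeal A L, (∀ x ∈ Cm Y (w + 1), x ∈ N) → ∀ l : L, ⁅l, z⁆ ∈ N :=
          fun N hN => central_of_gen hY N z fun y hy => hN _ (mem_Cm_succ.mpr ⟨y, hy, z, hzc, rfl⟩)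
        rw [List.length_cons, pow_succ', mul_assoc]
        apply strip (fun N => (∀ x ∈ Cm Y (w + 1), x ∈ N) ∧ ∀ x ∈ Cm Y w, x ∈ z :: Z ∨ x ∈ N)
          (fun N N' hle hN => ⟨fun x hx => hle (hN.1 x hx),
            fun x hx => (hN.2 x hx).imp_right fun h => hle h⟩) z
          (fun N hN => hcen N hN.1) _ _ m I J h
        · cases w with
          | zero =>
            intro v _
            rw [hm z hzc]
            exact zero_mem _
          | succ w =>
            obtain ⟨y, hy, x, _, rfl⟩ := mem_Cm_succ.mp hzc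
            exact key_pow I J m c hc y x (hm y hy) (hcen _ h.1)
        · intro I' J' h' hz'
          apply ihZ (fun x hx => hZ x (by simp [hx])) I' J' ⟨h'.1, fun x hx => ?_⟩
          rcases h'.2 x hx with h1 | h1
          · rcases List.mem_cons.mp h1 with rfl | h2
            · exact Or.inr hz'
            · exact Or.inl h2
          · exact Or.inr h1
    intro I J h
    have := inner (Cm Y w) (fun _ h => h) I J ⟨h, fun x hx => Or.inl hx⟩
    rwa [length_Cm] at this

def cf (r m : ℕ) : ℕ → ℕ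
  | 0 => 0
  | j + 1 => cf r m j + Mf r m (cf r m j)

theorem nilp {Y : List L} (hY : LieSubalgebra.lieSpan A L {y | y ∈ Y} = ⊤) (m : ℕ) (c : A)
    (hc : ∀ x : L, c • (m.factorial : A) • x = x) (hm : ∀ y ∈ Y, ad A L y ^ m = 0) (j : ℕ) :
    lc (⊤ : LieIdeal A L) (cf Y.length m j) ≤ derivedSeries A L j := by
  induction j with
  | zero => exact le_top
  | succ j ih =>
    rw [cf, lcs_add']
    refine (lcs_mono' ih _).trans (lemmaQ hY m c hc hm _ _ _ fun z hz v hv => ?_)
    rw [derivedSeries_def, derivedSeriesOfIdeal_succ]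
    exact LieSubmodule.lie_mem_lie (ih (Cm_mem_lcs Y _ z hz)) hv

end Pool.Agent.Lib.MP_dd8a4a_al
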