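import Mathlib
import Pool.Agent.Lib.MP_dd8a4a_al.Kreknin
import Pool.Agent.Lib.MP_dd8a4a_al.Nilp

namespace Pool.Agent.Lib.MP_dd8a4a_al

open LieAlgebra Polynomial
open scoped TensorProduct

theorem exists_ring (k : ℕ) [NeZero k] :
    ∃ (A : Type) (_ : CommRing A) (χ : ZMod k → A) (ρ : A →ₗ[ℤ] ℤ), ρ 1 = 1 ∧ χ 0 = 1 ∧
      (∀ a b, χ (a + b) = χ a * χ b) ∧ (∀ t, t ≠ 0 → ∑ j ∈ Finset.range k, χ t ^ j = 0) ∧
      (∀ j, 0 < j → j < k → ∑ t, χ t ^ j = 0) := by
  have hk : 0 < k := Nat.pos_of_ne_zero (NeZero.ne k)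
  let f := cyclotomic k ℤ
  have hf : f.Monic := cyclotomic.monic k ℤ
  let ρ : AdjoinRoot f →ₗ[ℤ] ℤ := (lcoeff ℤ 0).comp (AdjoinRoot.modByMonicHom hf)
  have hρ : ρ 1 = 1 := by
    have : (1 : AdjoinRoot f) = AdjoinRoot.mk f 1 := by simp
    simp only [ρ, LinearMap.comp_apply]
    rw [this, AdjoinRoot.modByMonicHom_mk, (modByMonic_eq_self_iff hf).mpr]
    · simp
    · simpa using degree_cyclotomic_pos k ℤ hk
  have : IsDomain (AdjoinRoot f) :=
    AdjoinRoot.isDomain_of_prime (cyclotomic.irreducible hk).prime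
  have : NeZero (k : AdjoinRoot f) := ⟨fun h => by
    have h1 : ρ (k : AdjoinRoot f) = k := by
      rw [← nsmul_one, map_nsmul, hρ]
      simp
    rw [h, map_zero] at h1
    omega⟩
  have hζ : IsPrimitiveRoot (AdjoinRoot.root f) k := by
    rw [← isRoot_cyclotomic_iff, ← map_cyclotomic k (AdjoinRoot.of f)]
    exact AdjoinRoot.isRoot_root f
  set ζ := AdjoinRoot.root f
  have hgeo : ∀ t, 0 < t → t < k → ∑ j ∈ Finset.range k, (ζ ^ t) ^ j = 0 := by
    intro t h0 ht
    have h1 : ζ ^ t ≠ 1 := hζ.pow_ne_one_of_pos_of_lt h0.ne' ht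
    refine eq_zero_of_ne_zero_of_mul_left_eq_zero (sub_ne_zero_of_ne h1.symm) ?_
    rw [mul_neg_geom_sum, ← pow_mul, mul_comm, pow_mul, hζ.pow_eq_one, one_pow, sub_self]
  refine ⟨AdjoinRoot f, inferInstance, fun t => ζ ^ t.val, ρ, hρ, by simp, ?_, ?_, ?_⟩
  · intro a b
    simp only
    rw [← pow_add, ZMod.val_add, ← Nat.div_add_mod (a.val + b.val) k, pow_add, pow_mul,
      hζ.pow_eq_one, one_pow, one_mul, Nat.div_add_mod]
  · intro t ht
    exact hgeo _ (Nat.pos_of_ne_zero (by simpa using ht)) (ZMod.val_lt t)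
  · intro j h0 hj
    rw [← hgeo j h0 hj]
    symm
    apply Finset.sum_bij' (fun (i : ℕ) _ => (i : ZMod k)) (fun (t : ZMod k) _ => t.val)
    · simp
    · intro t _
      simpa using ZMod.val_lt t
    · intro i hi
      exact ZMod.val_cast_of_lt (by simpa using hi)
    · intro t _
      simp
    · intro i hi
      simp only
      rw [ZMod.val_cast_of_lt (by simpa using hi), ← pow_mul, ← pow_mul, mul_comm]

section

variable {k : ℕ} [NeZero k] {A M : Type*} [CommRing A] [LieRing M] [LieAlgebra A M]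

theorem exists_gr (χ : ZMod k → A) (h0 : χ 0 = 1) (hadd : ∀ a b, χ (a + b) = χ a * χ b)
    (hs1 : ∀ t, t ≠ 0 → ∑ j ∈ Finset.range k, χ t ^ j = 0)
    (hs2 : ∀ j, 0 < j → j < k → ∑ t, χ t ^ j = 0)
    (Φ : Module.End A M) (hΦ : ∀ x y, Φ ⁅x, y⁆ = ⁅Φ x, Φ y⁆) (hk : Φ ^ k = 1)
    (hN : ∀ x, ∑ j ∈ Finset.range k, (Φ ^ j) x = 0) (c : A)
    (hc : ∀ x : M, c • (k : A) • x = x) :
    ∃ g : Gr k A M, (∀ t x, Φ (g.pr t x) = χ t • g.pr t x) ∧
      ∀ t x, g.pr t (Φ x) = Φ (g.pr t x) := by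
  have hkpos : 0 < k := Nat.pos_of_ne_zero (NeZero.ne k)
  have hχk : ∀ t, χ t ^ k = 1 := by
    intro t
    have : ∀ n : ℕ, χ t ^ n = χ (n • t) := by
      intro n
      induction n with
      | zero => simp [h0]
      | succ n ih => rw [pow_succ, ih, succ_nsmul, hadd]
    rw [this, nsmul_eq_mul, ZMod.natCast_self, zero_mul, h0]
  let T : ZMod k → Module.End A M := fun t => χ (-t) • Φ
  let pr : ZMod k → Module.End A M := fun t => c • ∑ j ∈ Finset.range k, T t ^ j
  have hT : ∀ t, T t ^ k = 1 := by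
    intro t
    simp only [T]
    rw [_root_.smul_pow, hχk, hk, one_smul]
  have E1 : ∀ t x, Φ (pr t x) = χ t • pr t x := by
    intro t x
    have h1 : T t * ∑ j ∈ Finset.range k, T t ^ j = ∑ j ∈ Finset.range k, T t ^ j := by
      have := mul_geom_sum (T t) k
      rw [hT, sub_self, sub_mul, one_mul, sub_eq_zero] at this
      exact this
    have h2 : Φ = χ t • T t := by
      simp only [T]
      rw [smul_smul, ← hadd, add_neg_cancel, h0, one_smul]
    have h3 : T t (pr t x) = pr t x := by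
      simp only [pr, LinearMap.smul_apply, map_smul]
      rw [← Module.End.mul_apply, h1]
    conv_lhs => rw [h2]
    rw [LinearMap.smul_apply, h3]
  have E2 : ∀ s t x, Φ x = χ s • x → pr t x = if s = t then x else 0 := by
    intro s t x hx
    have h1 : ∀ j : ℕ, (T t ^ j) x = χ (s - t) ^ j • x := by
      intro j
      induction j with
      | zero => simp
      | succ j ih =>
        rw [pow_succ', Module.End.mul_apply, ih, map_smul]
        simp only [T, LinearMap.smul_apply]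
        rw [hx, smul_smul, smul_smul, mul_assoc, ← hadd, pow_succ, neg_add_eq_sub]
    simp only [pr, LinearMap.smul_apply, LinearMap.sum_apply, h1]
    rw [← Finset.sum_smul]
    split_ifs with h
    · rw [h, sub_self, h0]
      simpa using hc x
    · rw [hs1 _ (sub_ne_zero_of_ne h)]
      simp
  refine ⟨⟨pr, ?_, ?_, ?_, ?_⟩, E1, ?_⟩
  · intro x
    simp only [pr, T, LinearMap.smul_apply, LinearMap.sum_apply, _root_.smul_pow]
    rw [← Finset.smul_sum, Finset.sum_comm, Finset.sum_eq_single 0]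
    · simpa [← Nat.cast_smul_eq_nsmul A] using hc x
    · intro j hj hj0
      rw [← Finset.sum_smul]
      have : ∑ t : ZMod k, χ (-t) ^ j = ∑ t : ZMod k, χ t ^ j :=
        Fintype.sum_equiv (Equiv.neg _) _ _ fun _ => rfl
      rw [this, hs2 j (Nat.pos_of_ne_zero hj0) (by simpa using hj), zero_smul]
    · intro h
      exact absurd (Finset.mem_range.mpr hkpos) h
  · intro s t x hst
    rw [E2 t s _ (E1 t x), if_neg (Ne.symm hst)]
  · intro a b x y hx hy
    rw [E2 (a + b) (a + b), if_pos rfl]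
    have h1 := E1 a x
    have h2 := E1 b y
    rw [hx] at h1
    rw [hy] at h2
    rw [hΦ, h1, h2, smul_lie, lie_smul, smul_smul, hadd]
  · intro x
    simp only [pr, T, LinearMap.smul_apply, LinearMap.sum_apply, neg_zero, h0, one_smul]
    rw [hN, smul_zero]
  · intro t x
    have : Commute Φ (pr t) := by
      apply Commute.smul_right
      apply Commute.sum_right
      intro j _
      exact ((Commute.refl Φ).smul_right _).pow_right j
    exact (congrArg (fun S : Module.End A M => S x) this.eq).symm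

theorem Gr.ad_nilp (g : Gr k A M) (t : ZMod k) (ht : IsUnit t) (y : M) (hy : g.pr t y = y) :
    ad A M y ^ k = 0 := by
  ext x
  rw [← g.sum x, map_sum, LinearMap.zero_apply]
  apply Finset.sum_eq_zero
  intro s _
  have h1 : ∀ j : ℕ, g.pr (s + j * t) ((ad A M y ^ j) (g.pr s x)) = (ad A M y ^ j) (g.pr s x) := by
    intro j
    induction j with
    | zero => simpa using g.idem s x
    | succ j ih =>
      rw [pow_succ', Module.End.mul_apply, ad_apply]
      have := g.mul _ _ _ _ hy ih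
      rwa [show t + (s + j * t) = s + ((j + 1 : ℕ) : ZMod k) * t by push_cast; ring] at this
  obtain ⟨u, rfl⟩ := ht
  have h2 := h1 (-s * (u⁻¹ : (ZMod k)ˣ)).val
  rw [ZMod.natCast_zmod_val, mul_assoc, Units.inv_mul, mul_one, add_neg_cancel, g.zero] at h2
  have h3 := (ZMod.val_lt (-s * ((u⁻¹ : (ZMod k)ˣ) : ZMod k))).le
  obtain ⟨d, hd⟩ := Nat.exists_eq_add_of_le' h3
  have : ad A M y ^ k = ad A M y ^ d * ad A M y ^ (-s * ((u⁻¹ : (ZMod k)ˣ) : ZMod k)).val := by
    rw [← pow_add, ← hd]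
  rw [this, Module.End.mul_apply, ← h2, map_zero]

theorem exists_inv {e n : ℕ} (h : e.Coprime n) (he : ∀ x : M, e • x = 0) :
    ∃ c : A, ∀ x : M, c • (n : A) • x = x := by
  obtain ⟨a, b, hab⟩ := Nat.isCoprime_iff_coprime.mpr h
  refine ⟨(b : A), fun x => ?_⟩
  have h1 : ((b : A) * (n : A)) = 1 - (a : A) * (e : A) := by
    have := congrArg (Int.cast : ℤ → A) hab
    push_cast at this
    rw [← this]
    ring
  rw [smul_smul, h1, sub_smul, one_smul, mul_smul, Nat.cast_smul_eq_nsmul, he, smul_zero, sub_zero]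

end

section

variable {L : Type*} [LieRing L]

theorem tmul_inj {A : Type*} [CommRing A] (ρ : A →ₗ[ℤ] ℤ) (hρ : ρ 1 = 1) (x : L)
    (h : (1 : A) ⊗ₜ[ℤ] x = 0) : x = 0 := by
  have := congrArg (fun z => TensorProduct.lid ℤ L (TensorProduct.map ρ LinearMap.id z)) h
  simpa [hρ] using this

theorem base_facts {A : Type*} [CommRing A] (k : ℕ) (F : Module.End ℤ L)
    (hF : ∀ x y, F ⁅x, y⁆ = ⁅F x, F y⁆)
    (hk : F ^ k = 1) (hN : ∀ x, ∑ j ∈ Finset.range k, (F ^ j) x = 0) (e : ℕ)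
    (he : ∀ x : L, e • x = 0) :
    (∀ x y, F.baseChange A ⁅x, y⁆ = ⁅F.baseChange A x, F.baseChange A y⁆) ∧
    (F.baseChange A : Module.End A (A ⊗[ℤ] L)) ^ k = 1 ∧
    (∀ x, ∑ j ∈ Finset.range k, ((F.baseChange A : Module.End A (A ⊗[ℤ] L)) ^ j) x = 0) ∧
    ∀ x : A ⊗[ℤ] L, e • x = 0 := by
  refine ⟨?_, ?_, ?_, ?_⟩
  · intro x y
    have l1 : ∀ x y z : A ⊗[ℤ] L, ⁅x, y + z⁆ = ⁅x, y⁆ + ⁅x, z⁆ := fun x y z => lie_add x y z
    have l2 : ∀ x y z : A ⊗[ℤ] L, ⁅x + y, z⁆ = ⁅x, z⁆ + ⁅y, z⁆ := fun x y z => add_lie x y z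
    have l3 : ∀ x : A ⊗[ℤ] L, ⁅x, (0 : A ⊗[ℤ] L)⁆ = 0 := fun x => lie_zero x
    have l4 : ∀ x : A ⊗[ℤ] L, ⁅(0 : A ⊗[ℤ] L), x⁆ = 0 := fun x => zero_lie x
    induction x with
    | zero => simp [l4]
    | add a b ha hb => simp only [l2, map_add, ha, hb]
    | tmul a x =>
      induction y with
      | zero => simp [l3]
      | add a b ha hb => simp only [l1, map_add, ha, hb]
      | tmul b y => simp [hF]
  · rw [← LinearMap.baseChange_pow, hk, LinearMap.baseChange_one]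
  · intro x
    induction x with
    | zero => simp
    | add a b ha hb => simp only [map_add, Finset.sum_add_distrib, ha, hb, add_zero]
    | tmul a x =>
      simp only [← LinearMap.baseChange_pow, LinearMap.baseChange_tmul]
      rw [← TensorProduct.tmul_sum, hN, TensorProduct.tmul_zero]
  · intro x
    induction x with
    | zero => simp
    | add a b ha hb => rw [smul_add, ha, hb, add_zero]
    | tmul a x => rw [← TensorProduct.tmul_smul, he, TensorProduct.tmul_zero]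

theorem lie0 (k : ℕ) [NeZero k] (F : Module.End ℤ L) (hF : ∀ x y, F ⁅x, y⁆ = ⁅F x, F y⁆)
    (hk : F ^ k = 1) (hN : ∀ x, ∑ j ∈ Finset.range k, (F ^ j) x = 0) (e : ℕ)
    (he : ∀ x : L, e • x = 0) (hek : e.Coprime k) : derivedSeries ℤ L (kr k) = ⊥ := by
  obtain ⟨A, _, χ, ρ, hρ, h0, hadd, hs1, hs2⟩ := exists_ring k
  obtain ⟨b1, b2, b3, b4⟩ := base_facts (A := A) k F hF hk hN e he
  obtain ⟨c, hc⟩ := exists_inv (A := A) hek b4
  obtain ⟨g, -, -⟩ := exists_gr χ h0 hadd hs1 hs2 _ b1 b2 b3 c hc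
  have h := kreknin g
  rw [derivedSeries_baseChange] at h
  rw [eq_bot_iff]
  intro x hx
  have := LieSubmodule.tmul_mem_baseChange_of_mem (1 : A) hx
  rw [h] at this
  exact tmul_inj ρ hρ x (by simpa using this)

theorem lie1 (k q p : ℕ) [NeZero k] (hkq : k = q * p) (hu : ∀ t : ZMod k, IsUnit t ∨ p ∣ t.val)
    (F : Module.End ℤ L) (hF : ∀ x y, F ⁅x, y⁆ = ⁅F x, F y⁆)
    (hk : F ^ k = 1) (hN : ∀ x, ∑ j ∈ Finset.range k, (F ^ j) x = 0) (e : ℕ)
    (he : ∀ x : L, e • x = 0) (hek : e.Coprime k.factorial) (S : List L)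
    (hS : LieSubalgebra.lieSpan ℤ L {x | ∃ u ∈ S, ∃ i, (F ^ i) u = x} = ⊤)
    (hψ : ∀ u ∈ S, ∑ j ∈ Finset.range p, (F ^ (q * j)) u = 0) :
    lc (⊤ : LieIdeal ℤ L) (cf (S.length * k) k (kr k)) = ⊥ := by
  have hkpos : 0 < k := Nat.pos_of_ne_zero (NeZero.ne k)
  obtain ⟨A, _, χ, ρ, hρ, h0, hadd, hs1, hs2⟩ := exists_ring k
  obtain ⟨b1, b2, b3, b4⟩ := base_facts (A := A) k F hF hk hN e he
  obtain ⟨c, hc⟩ := exists_inv (A := A) (hek.coprime_dvd_right (Nat.dvd_factorial hkpos le_rfl)) b4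
  obtain ⟨c', hc'⟩ := exists_inv (A := A) hek b4
  obtain ⟨g, g1, g2⟩ := exists_gr χ h0 hadd hs1 hs2 _ b1 b2 b3 c hc
  set Φ : Module.End A (A ⊗[ℤ] L) := F.baseChange A with hΦ
  have g3 : ∀ (i : ℕ) t x, g.pr t ((Φ ^ i) x) = χ (i • t) • g.pr t x := by
    intro i t x
    induction i with
    | zero => simp [h0]
    | succ i ih =>
      rw [pow_succ', Module.End.mul_apply, g2, ih, map_smul, g1, smul_smul, succ_nsmul, hadd]
  let Y : List (A ⊗[ℤ] L) :=
    S.flatMap fun u => (List.range k).map fun i : ℕ => g.pr (i : ZMod k) ((1 : A) ⊗ₜ[ℤ] u)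
  have hYlen : Y.length = S.length * k := by
    simp [Y, List.length_flatMap]
  have hYmem : ∀ u ∈ S, ∀ t, g.pr t ((1 : A) ⊗ₜ[ℤ] u) ∈ Y := by
    intro u hu t
    simp only [Y, List.mem_flatMap, List.mem_map, List.mem_range]
    exact ⟨u, hu, t.val, ZMod.val_lt t, by simp⟩
  have hY : LieSubalgebra.lieSpan A (A ⊗[ℤ] L) {y | y ∈ Y} = ⊤ := by
    have h1 : ∀ x : L, (1 : A) ⊗ₜ[ℤ] x ∈ LieSubalgebra.lieSpan A (A ⊗[ℤ] L) {y | y ∈ Y} := by
      intro x
      have hx : x ∈ LieSubalgebra.lieSpan ℤ L {x | ∃ u ∈ S, ∃ i, (F ^ i) u = x} := by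
        rw [hS]; trivial
      induction hx using LieSubalgebra.lieSpan_induction with
      | mem y hy =>
        obtain ⟨u, hu, i, rfl⟩ := hy
        have : (1 : A) ⊗ₜ[ℤ] (F ^ i) u = (Φ ^ i) ((1 : A) ⊗ₜ[ℤ] u) := by
          rw [hΦ, ← LinearMap.baseChange_pow, LinearMap.baseChange_tmul]
        rw [this, ← g.sum ((Φ ^ i) _)]
        apply sum_mem
        intro t _
        rw [g3]
        exact LieSubalgebra.smul_mem _ _ (LieSubalgebra.subset_lieSpan (hYmem u hu t))
      | zero => simp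
      | add a b _ _ ha hb => rw [TensorProduct.tmul_add]; exact add_mem ha hb
      | smul n a _ ha => rw [TensorProduct.tmul_smul]; exact zsmul_mem ha n
      | lie a b _ _ ha hb =>
        have := LieSubalgebra.lie_mem _ ha hb
        simpa using this
    rw [eq_top_iff]
    intro z _
    induction z with
    | zero => exact zero_mem _
    | add a b ha hb => exact add_mem (ha trivial) (hb trivial)
    | tmul a x =>
      have : a ⊗ₜ[ℤ] x = a • ((1 : A) ⊗ₜ[ℤ] x) := by simp [TensorProduct.smul_tmul']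
      rw [this]
      exact LieSubalgebra.smul_mem _ _ (h1 x)
  have hm : ∀ y ∈ Y, ad A (A ⊗[ℤ] L) y ^ k = 0 := by
    intro y hy
    simp only [Y, List.mem_flatMap, List.mem_map, List.mem_range] at hy
    obtain ⟨u, huS, i, -, rfl⟩ := hy
    generalize (i : ZMod k) = t
    rcases hu t with h | ⟨d, hd⟩
    · exact g.ad_nilp t h _ (g.idem _ _)
    · have h1 : g.pr t ((1 : A) ⊗ₜ[ℤ] (∑ j ∈ Finset.range p, (F ^ (q * j)) u))
          = (p : A) • g.pr t ((1 : A) ⊗ₜ[ℤ] u) := by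
        rw [TensorProduct.tmul_sum, map_sum]
        rw [Finset.sum_congr rfl (g := fun _ => g.pr t ((1 : A) ⊗ₜ[ℤ] u))]
        · simp [Nat.cast_smul_eq_nsmul]
        · intro j _
          have : (1 : A) ⊗ₜ[ℤ] (F ^ (q * j)) u = (Φ ^ (q * j)) ((1 : A) ⊗ₜ[ℤ] u) := by
            rw [hΦ, ← LinearMap.baseChange_pow, LinearMap.baseChange_tmul]
          rw [this, g3]
          have h2 : (q * j) • t = 0 := by
            rw [← ZMod.natCast_zmod_val t, hd, nsmul_eq_mul, ← Nat.cast_mul,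
              show q * j * (p * d) = k * (j * d) by rw [hkq]; ring, Nat.cast_mul,
              ZMod.natCast_self, zero_mul]
          rw [h2, h0, one_smul]
      rw [hψ u huS, TensorProduct.tmul_zero, map_zero] at h1
      have h3 : g.pr t ((1 : A) ⊗ₜ[ℤ] u) = 0 := by
        rw [← hc (g.pr t _)]
        have : (k : A) = (q : A) * (p : A) := by rw [hkq]; push_cast; rfl
        rw [this, mul_smul, ← h1, smul_zero, smul_zero]
      rw [h3, map_zero, zero_pow hkpos.ne']
  have h := nilp hY k c' hc' hm (kr k)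
  rw [kreknin g, hYlen] at h
  have htr : ∀ n, ∀ x ∈ lc (⊤ : LieIdeal ℤ L) n,
      (1 : A) ⊗ₜ[ℤ] x ∈ lc (⊤ : LieIdeal A (A ⊗[ℤ] L)) n := by
    intro n
    have : (lc (⊤ : LieIdeal ℤ L) n).baseChange A = lc (⊤ : LieIdeal A (A ⊗[ℤ] L)) n := by
      induction n with
      | zero => exact LieSubmodule.baseChange_top _ _ _ _
      | succ n ih => rw [lc, lc, LieSubmodule.lie_baseChange, ih, LieSubmodule.baseChange_top]
    intro x hx
    rw [← this]
    exact LieSubmodule.tmul_mem_baseChange_of_mem (1 : A) hx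
  rw [eq_bot_iff]
  intro x hx
  have := h (htr _ x hx)
  exact tmul_inj ρ hρ x (by simpa using this)

end

end Pool.Agent.Lib.MP_dd8a4a_al
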