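import Mathlib
import Pool.Agent.Lib.MP_dd8a4a_al.Nilp

namespace Pool.Agent.Lib.MP_dd8a4a_al

open scoped commutatorElement

variable {G : Type*} [Group G]

/-- lower central series -/
abbrev gam (G : Type*) [Group G] (n : ℕ) : Subgroup G := (⊤ : Subgroup G).lowerCentralSeries n

theorem gam_succ_le (n : ℕ) : gam G (n + 1) ≤ gam G n :=
  Subgroup.lowerCentralSeries_antitone _ (Nat.le_succ n)

theorem gam_anti {a b : ℕ} (h : a ≤ b) : gam G b ≤ gam G a :=
  Subgroup.lowerCentralSeries_antitone _ h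

theorem gam_comm (b : ℕ) : ∀ a, ⁅gam G a, gam G b⁆ ≤ gam G (a + b + 1) := by
  induction b with
  | zero => intro a; exact le_rfl
  | succ b ih =>
    intro a
    have key : ∀ H : Subgroup G, H ≤ gam G (a + (b + 1) + 1) ↔
        H.map (QuotientGroup.mk' (gam G (a + (b + 1) + 1))) = ⊥ := by
      intro H
      rw [Subgroup.map_eq_bot_iff, QuotientGroup.ker_mk']
    rw [Subgroup.commutator_comm, key]
    show Subgroup.map _ ⁅⁅gam G b, ⊤⁆, gam G a⁆ = ⊥
    rw [Subgroup.map_commutator, Subgroup.map_commutator]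
    apply Subgroup.commutator_commutator_eq_bot_of_rotate
    · rw [← Subgroup.map_commutator, ← Subgroup.map_commutator, ← key,
        Subgroup.commutator_comm ⊤]
      have := ih (a + 1)
      rwa [show a + 1 + b + 1 = a + (b + 1) + 1 by ring] at this
    · rw [← Subgroup.map_commutator, ← Subgroup.map_commutator, ← key]
      exact Subgroup.commutator_mono (ih a) le_rfl

theorem comm_mem_gam {a b : ℕ} {x y : G} (hx : x ∈ gam G a) (hy : y ∈ gam G b) :
    ⁅x, y⁆ ∈ gam G (a + b + 1) :=
  gam_comm b a (Subgroup.commutator_mem_commutator hx hy)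

theorem map_mem_gam {H : Type*} [Group H] (f : G →* H) {w : ℕ} {g : G} (hg : g ∈ gam G w) :
    f g ∈ gam H w := by
  have h1 : (gam G w).map f ≤ gam H w := by
    rw [Subgroup.map_lowerCentralSeries]
    clear hg
    induction w with
    | zero => exact le_top
    | succ w ih => exact Subgroup.commutator_mono ih le_top
  exact h1 (Subgroup.mem_map_of_mem f hg)

theorem end_mem_gam (f : Monoid.End G) {w : ℕ} {g : G} (hg : g ∈ gam G w) : f g ∈ gam G w :=
  map_mem_gam f hg

def rel (G : Type*) [Group G] : AddSubgroup (FreeAbelianGroup (ℕ × G)) :=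
  AddSubgroup.closure {z | (∃ w g, (g ∉ gam G w ∨ g ∈ gam G (w + 1)) ∧
      z = FreeAbelianGroup.of (w, g)) ∨
    ∃ w g h, g ∈ gam G w ∧ h ∈ gam G w ∧
      z = FreeAbelianGroup.of (w, g * h) - FreeAbelianGroup.of (w, g) - FreeAbelianGroup.of (w, h)}

/-- the associated graded abelian group -/
def Lr (G : Type*) [Group G] : Type _ := FreeAbelianGroup (ℕ × G) ⧸ rel G

noncomputable instance : AddCommGroup (Lr G) :=
  inferInstanceAs (AddCommGroup (FreeAbelianGroup (ℕ × G) ⧸ rel G))

noncomputable def mkL : FreeAbelianGroup (ℕ × G) →+ Lr G := QuotientAddGroup.mk' (rel G)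

noncomputable def io (w : ℕ) (g : G) : Lr G := mkL (FreeAbelianGroup.of (w, g))

theorem mkL_eq_zero {z : FreeAbelianGroup (ℕ × G)} (h : z ∈ rel G) : mkL z = 0 :=
  (QuotientAddGroup.eq_zero_iff z).mpr h

theorem io_not {w : ℕ} {g : G} (h : g ∉ gam G w) : io w g = 0 :=
  mkL_eq_zero (AddSubgroup.subset_closure (Or.inl ⟨w, g, Or.inl h, rfl⟩))

theorem io_succ {w : ℕ} {g : G} (h : g ∈ gam G (w + 1)) : io w g = 0 :=
  mkL_eq_zero (AddSubgroup.subset_closure (Or.inl ⟨w, g, Or.inr h, rfl⟩))

theorem io_mul {w : ℕ} {g h : G} (hg : g ∈ gam G w) (hh : h ∈ gam G w) :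
    io w (g * h) = io w g + io w h := by
  have := mkL_eq_zero (G := G) (AddSubgroup.subset_closure (Or.inr ⟨w, g, h, hg, hh, rfl⟩))
  rw [map_sub, map_sub, sub_sub, sub_eq_zero] at this
  exact this

theorem io_one (w : ℕ) : io w (1 : G) = 0 := io_succ (one_mem _)

theorem io_inv {w : ℕ} {g : G} (hg : g ∈ gam G w) : io w g⁻¹ = -io w g := by
  rw [eq_neg_iff_add_eq_zero, ← io_mul (inv_mem hg) hg, inv_mul_cancel, io_one]

theorem io_pow {w : ℕ} {g : G} (hg : g ∈ gam G w) (n : ℕ) : io w (g ^ n) = n • io w g := by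
  induction n with
  | zero => simp [io_one]
  | succ n ih => rw [pow_succ, io_mul (pow_mem hg n) hg, ih, succ_nsmul]

theorem conj_mem_gam {w : ℕ} {g : G} (hg : g ∈ gam G w) (x : G) : x * g * x⁻¹ ∈ gam G w :=
  Subgroup.Normal.conj_mem inferInstance g hg x

theorem io_conj {w : ℕ} {g : G} (hg : g ∈ gam G w) (x : G) : io w (x * g * x⁻¹) = io w g := by
  have h1 : ⁅x, g⁆ ∈ gam G (w + 1) := by
    have := comm_mem_gam (a := 0) (x := x) trivial hg
    rwa [zero_add] at this
  have : x * g * x⁻¹ = ⁅x, g⁆ * g := by simp [commutatorElement_def]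
  rw [this, io_mul (gam_succ_le _ h1) hg, io_succ h1, zero_add]

@[elab_as_elim]
theorem Lr.ind {p : Lr G → Prop} (x : Lr G) (h0 : p 0) (h1 : ∀ w g, g ∈ gam G w → p (io w g))
    (h2 : ∀ a b, p a → p b → p (a + b)) : p x := by
  obtain ⟨z, rfl⟩ : ∃ z, mkL z = x := QuotientAddGroup.mk'_surjective (rel G) x
  induction z using FreeAbelianGroup.induction_on with
  | zero => simpa using h0
  | of a =>
    by_cases h : a.2 ∈ gam G a.1
    · exact h1 _ _ h
    · have : mkL (FreeAbelianGroup.of a) = 0 := io_not h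
      rwa [this]
  | neg a _ =>
    by_cases h : a.2 ∈ gam G a.1
    · have : mkL (-FreeAbelianGroup.of a) = io a.1 a.2⁻¹ := by rw [map_neg, io_inv h]; rfl
      rw [this]
      exact h1 _ _ (inv_mem h)
    · have : mkL (FreeAbelianGroup.of a) = 0 := io_not h
      rwa [map_neg, this, neg_zero]
  | add a b ha hb => rw [map_add]; exact h2 _ _ ha hb

theorem Lr.hom_ext {B : Type*} [AddCommGroup B] {f g : Lr G →+ B}
    (h : ∀ w x, x ∈ gam G w → f (io w x) = g (io w x)) : f = g := by
  ext x
  induction x using Lr.ind with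
  | h0 => simp
  | h1 w x hx => exact h w x hx
  | h2 a b ha hb => simp [ha, hb]

open Classical in
noncomputable def liftL {B : Type*} [AddCommGroup B] (f : ℕ → G → B)
    (h1 : ∀ w, ∀ g ∈ gam G (w + 1), f w g = 0)
    (h2 : ∀ w, ∀ g ∈ gam G w, ∀ h ∈ gam G w, f w (g * h) = f w g + f w h) : Lr G →+ B :=
  QuotientAddGroup.lift (rel G)
    (FreeAbelianGroup.lift fun a : ℕ × G => if a.2 ∈ gam G a.1 then f a.1 a.2 else 0) (by
      rw [rel, AddSubgroup.closure_le]
      rintro z (⟨w, g, hg | hg, rfl⟩ | ⟨w, g, h, hg, hh, rfl⟩)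
      · simp [hg]
      · simp [h1 w g hg]
      · simp [hg, hh, mul_mem hg hh, h2 w g hg h hh])

theorem liftL_io {B : Type*} [AddCommGroup B] (f : ℕ → G → B) (h1) (h2) {w : ℕ} {g : G}
    (hg : g ∈ gam G w) : liftL f h1 h2 (io w g) = f w g := by
  have : liftL f h1 h2 (io w g) = (FreeAbelianGroup.lift fun a : ℕ × G =>
      open Classical in if a.2 ∈ gam G a.1 then f a.1 a.2 else 0) (FreeAbelianGroup.of (w, g)) :=
    rfl
  rw [this, FreeAbelianGroup.lift_apply_of, if_pos hg]

theorem io_eq_zero {w : ℕ} {g : G} (hg : g ∈ gam G w) (h : io w g = 0) : g ∈ gam G (w + 1) := by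
  classical
  have hc : ∀ x ∈ gam G w, (x : G ⧸ gam G (w + 1)) ∈ Subgroup.center (G ⧸ gam G (w + 1)) := by
    intro x hx
    rw [Subgroup.mem_center_iff]
    intro q
    obtain ⟨y, rfl⟩ := QuotientGroup.mk_surjective q
    rw [← QuotientGroup.mk_mul, ← QuotientGroup.mk_mul, QuotientGroup.eq]
    have := comm_mem_gam (b := 0) (y := y⁻¹) (inv_mem hx) trivial
    simpa [commutatorElement_def, mul_assoc] using this
  let _ : CommGroup (Subgroup.center (G ⧸ gam G (w + 1))) :=
    { (inferInstance : Group (Subgroup.center (G ⧸ gam G (w + 1)))) with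
      mul_comm := fun a b => Subtype.ext (Subgroup.mem_center_iff.mp b.2 a) }
  let f : ℕ → G → Additive (Subgroup.center (G ⧸ gam G (w + 1))) := fun v x =>
    if hx : v = w ∧ x ∈ gam G w then Additive.ofMul ⟨x, hc x hx.2⟩ else 0
  have h1 : ∀ v, ∀ x ∈ gam G (v + 1), f v x = 0 := by
    intro v x hx
    simp only [f]
    split_ifs with h'
    · obtain ⟨rfl, _⟩ := h'
      rw [ofMul_eq_zero]
      exact Subtype.ext ((QuotientGroup.eq_one_iff x).mpr hx)
    · rfl
  have h2 : ∀ v, ∀ x ∈ gam G v, ∀ y ∈ gam G v, f v (x * y) = f v x + f v y := by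
    intro v x hx y hy
    by_cases hv : v = w
    · subst hv
      simp only [f]
      rw [dif_pos ⟨trivial, mul_mem hx hy⟩, dif_pos ⟨trivial, hx⟩, dif_pos ⟨trivial, hy⟩]
      rfl
    · simp only [f]
      rw [dif_neg (fun h => hv h.1), dif_neg (fun h => hv h.1), dif_neg (fun h => hv h.1)]
      exact Subtype.ext (mul_one _).symm
  have h3 := liftL_io f h1 h2 hg
  rw [h, map_zero] at h3
  simp only [f] at h3
  rw [dif_pos ⟨trivial, hg⟩, eq_comm, ofMul_eq_zero] at h3
  exact (QuotientGroup.eq_one_iff g).mp (congrArg Subtype.val h3)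

noncomputable def brIn (a : ℕ) (x : G) (hx : x ∈ gam G a) : Lr G →+ Lr G :=
  liftL (fun b y => io (a + b + 1) ⁅x, y⁆) (fun b _ hg => io_succ (comm_mem_gam (b := b + 1) hx hg))
    (fun b y hy z hz => by
      rw [commutatorElement_mul_right_eq_mul_conj, mul_assoc, mul_assoc, ← mul_assoc y,
        io_mul (comm_mem_gam hx hy) (conj_mem_gam (comm_mem_gam hx hz) y),
        io_conj (comm_mem_gam hx hz)])

theorem brIn_io {a b : ℕ} {x y : G} (hx : x ∈ gam G a) (hy : y ∈ gam G b) :
    brIn a x hx (io b y) = io (a + b + 1) ⁅x, y⁆ := liftL_io _ _ _ hy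

open Classical in
noncomputable def br : Lr G →+ Lr G →+ Lr G :=
  liftL (fun a x => if hx : x ∈ gam G a then brIn a x hx else 0)
    (fun a x hx => by
      rw [dif_pos (gam_succ_le _ hx)]
      apply Lr.hom_ext
      intro b y hy
      rw [brIn_io _ hy, AddMonoidHom.zero_apply]
      apply io_succ
      have := comm_mem_gam hx hy
      rwa [show a + 1 + b + 1 = a + b + 1 + 1 by ring] at this)
    (fun a x hx y hy => by
      rw [dif_pos hx, dif_pos hy, dif_pos (mul_mem hx hy)]
      apply Lr.hom_ext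
      intro b z hz
      rw [AddMonoidHom.add_apply, brIn_io _ hz, brIn_io _ hz, brIn_io _ hz,
        commutatorElement_mul_left_eq_conj_mul,
        io_mul (conj_mem_gam (comm_mem_gam hy hz) x) (comm_mem_gam hx hz),
        io_conj (comm_mem_gam hy hz), add_comm])

theorem br_io {a b : ℕ} {x y : G} (hx : x ∈ gam G a) (hy : y ∈ gam G b) :
    br (io a x) (io b y) = io (a + b + 1) ⁅x, y⁆ := by
  rw [br, liftL_io _ _ _ hx, dif_pos hx, brIn_io hx hy]

theorem br_skew (u v : Lr G) : br u v = -br v u := by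
  induction u using Lr.ind with
  | h0 => simp
  | h2 a b ha hb => simp only [map_add, AddMonoidHom.add_apply, ha, hb, neg_add]
  | h1 a x hx =>
    induction v using Lr.ind with
    | h0 => simp
    | h2 a b ha hb => simp only [map_add, AddMonoidHom.add_apply, ha, hb, neg_add]
    | h1 b y hy =>
      rw [br_io hx hy, br_io hy hx, ← io_inv (comm_mem_gam hy hx), commutatorElement_inv,
        add_comm a b]

theorem br_self (u : Lr G) : br u u = 0 := by
  induction u using Lr.ind with
  | h0 => simp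
  | h1 a x hx => rw [br_io hx hx, commutatorElement_self, io_one]
  | h2 a b ha hb =>
    simp only [map_add, AddMonoidHom.add_apply, ha, hb]
    rw [br_skew a b]
    simp

theorem br_jac (u v w : Lr G) : br (br u v) w + br (br v w) u + br (br w u) v = 0 := by
  induction u using Lr.ind with
  | h0 => simp
  | h2 a b ha hb =>
    simp only [map_add, AddMonoidHom.add_apply]
    rw [← add_zero 0]
    nth_rewrite 1 [← ha]
    rw [← hb]
    abel
  | h1 a x hx =>
    induction v using Lr.ind with
    | h0 => simp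
    | h2 a b ha hb =>
      simp only [map_add, AddMonoidHom.add_apply]
      rw [← add_zero 0]
      nth_rewrite 1 [← ha]
      rw [← hb]
      abel
    | h1 b y hy =>
      induction w using Lr.ind with
      | h0 => simp
      | h2 a b ha hb =>
        simp only [map_add, AddMonoidHom.add_apply]
        rw [← add_zero 0]
        nth_rewrite 1 [← ha]
        rw [← hb]
        abel
      | h1 c z hz =>
        rw [br_io hx hy, br_io hy hz, br_io hz hx]
        have m1 := comm_mem_gam (comm_mem_gam hx hy) (conj_mem_gam hz y)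
        have m2 := comm_mem_gam (comm_mem_gam hy hz) (conj_mem_gam hx z)
        have m3 := comm_mem_gam (comm_mem_gam hz hx) (conj_mem_gam hy x)
        rw [← io_conj hz y, br_io (comm_mem_gam hx hy) (conj_mem_gam hz y),
          ← io_conj hx z, br_io (comm_mem_gam hy hz) (conj_mem_gam hx z),
          ← io_conj hy x, br_io (comm_mem_gam hz hx) (conj_mem_gam hy x)]
        rw [show b + c + 1 + a + 1 = a + b + 1 + c + 1 by ring] at m2 ⊢
        rw [show c + a + 1 + b + 1 = a + b + 1 + c + 1 by ring] at m3 ⊢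
        rw [← io_mul m1 m2, ← io_mul (mul_mem m1 m2) m3,
          commutatorElement_commutatorElement_conj_mul, io_one]

noncomputable instance : LieRing (Lr G) where
  bracket u v := br u v
  add_lie u v w := by simp only [map_add, AddMonoidHom.add_apply]
  lie_add u v w := by simp only [map_add]
  lie_self := br_self
  leibniz_lie u v w := by
    show br u (br v w) = br (br u v) w + br v (br u w)
    have := br_jac u v w
    rw [br_skew (br v w) u, br_skew (br w u) v, br_skew w u, map_neg, neg_neg] at this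
    rw [← sub_eq_zero, ← neg_eq_zero, ← this]
    abel

theorem lie_io {a b : ℕ} {x y : G} (hx : x ∈ gam G a) (hy : y ∈ gam G b) :
    ⁅io a x, io b y⁆ = io (a + b + 1) ⁅x, y⁆ := br_io hx hy

noncomputable def mapL (φ : Monoid.End G) : Module.End ℤ (Lr G) :=
  (liftL (fun w g => io w (φ g)) (fun _ _ hg => io_succ (end_mem_gam φ hg))
    (fun w g hg h hh => by
      rw [map_mul, io_mul (end_mem_gam φ hg) (end_mem_gam φ hh)])).toIntLinearMap

theorem mapL_io (φ : Monoid.End G) {w : ℕ} {g : G} (hg : g ∈ gam G w) :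
    mapL φ (io w g) = io w (φ g) := by
  rw [mapL, AddMonoidHom.coe_toIntLinearMap, liftL_io _ _ _ hg]

theorem mapL_pow_io (φ : Monoid.End G) (j : ℕ) {w : ℕ} {g : G} (hg : g ∈ gam G w) :
    (mapL φ ^ j) (io w g) = io w ((φ ^ j) g) := by
  induction j with
  | zero => simp
  | succ j ih =>
    rw [pow_succ', Module.End.mul_apply, ih, mapL_io φ (end_mem_gam (φ ^ j) hg), pow_succ']
    rfl

theorem mapL_lie (φ : Monoid.End G) (u v : Lr G) : mapL φ ⁅u, v⁆ = ⁅mapL φ u, mapL φ v⁆ := by
  induction u using Lr.ind with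
  | h0 => simp
  | h2 a b ha hb => simp only [map_add, add_lie, ha, hb]
  | h1 a x hx =>
    induction v using Lr.ind with
    | h0 => simp
    | h2 a b ha hb => simp only [map_add, lie_add, ha, hb]
    | h1 b y hy =>
      rw [lie_io hx hy, mapL_io φ hx, mapL_io φ hy, mapL_io φ (comm_mem_gam hx hy),
        lie_io (end_mem_gam φ hx) (end_mem_gam φ hy), map_commutatorElement]

theorem mapL_pow_one (φ : Monoid.End G) (k : ℕ) (h : φ ^ k = 1) : mapL φ ^ k = 1 := by
  ext x
  induction x using Lr.ind with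
  | h0 => simp
  | h2 a b ha hb => simp only [map_add, ha, hb]
  | h1 w g hg => rw [mapL_pow_io φ k hg, h]; rfl

/-- ordered norm -/
def nrm (φ : Monoid.End G) (g : G) : ℕ → G
  | 0 => 1
  | j + 1 => nrm φ g j * (φ ^ j) g

theorem nrm_mem_gam (φ : Monoid.End G) {w : ℕ} {g : G} (hg : g ∈ gam G w) (j : ℕ) :
    nrm φ g j ∈ gam G w := by
  induction j with
  | zero => exact one_mem _
  | succ j ih => exact mul_mem ih (end_mem_gam (φ ^ j) hg)

theorem io_nrm (φ : Monoid.End G) {w : ℕ} {g : G} (hg : g ∈ gam G w) (j : ℕ) :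
    io w (nrm φ g j) = ∑ i ∈ Finset.range j, io w ((φ ^ i) g) := by
  induction j with
  | zero => simp [nrm, io_one]
  | succ j ih =>
    rw [nrm, io_mul (nrm_mem_gam φ hg j) (end_mem_gam (φ ^ j) hg), ih, Finset.sum_range_succ]

theorem mapL_norm (φ : Monoid.End G) (k : ℕ) (h : ∀ g, nrm φ g k = 1) (x : Lr G) :
    ∑ j ∈ Finset.range k, (mapL φ ^ j) x = 0 := by
  induction x using Lr.ind with
  | h0 => simp
  | h2 a b ha hb => simp only [map_add, Finset.sum_add_distrib, ha, hb, add_zero]
  | h1 w g hg =>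
    simp only [mapL_pow_io φ _ hg]
    rw [← io_nrm φ hg, h, io_one]

theorem io_mem_of_gen {w : ℕ} (P : AddSubgroup (Lr G)) (S : Set G)
    (hS : ∀ s ∈ S, s ∈ gam G w ∧ io w s ∈ P) :
    ∀ g ∈ Subgroup.closure S, g ∈ gam G w ∧ io w g ∈ P := by
  intro g hg
  induction hg using Subgroup.closure_induction with
  | mem x hx => exact hS x hx
  | one => exact ⟨one_mem _, by rw [io_one]; exact zero_mem _⟩
  | mul x y _ _ hx hy => exact ⟨mul_mem hx.1 hy.1, by rw [io_mul hx.1 hy.1]; exact add_mem hx.2 hy.2⟩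
  | inv x _ hx => exact ⟨inv_mem hx.1, by rw [io_inv hx.1]; exact neg_mem hx.2⟩

theorem io_mem_lc (w : ℕ) : ∀ g ∈ gam G w, io w g ∈ lc (⊤ : LieIdeal ℤ (Lr G)) w := by
  induction w with
  | zero => intro g _; trivial
  | succ w ih =>
    intro g hg
    refine (io_mem_of_gen (lc (⊤ : LieIdeal ℤ (Lr G)) (w + 1)).toSubmodule.toAddSubgroup _ ?_
      g hg).2
    rintro _ ⟨p, hp, q, hq, rfl⟩
    refine ⟨comm_mem_gam (b := 0) hp hq, ?_⟩
    have := lie_io (b := 0) hp hq
    rw [add_zero] at this
    rw [← this, ← lie_skew]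
    apply neg_mem
    exact LieSubmodule.lie_mem_lie trivial (ih p hp)

theorem lieSpan_top (S : Set G) (hS : Subgroup.closure S = ⊤) (K : LieSubalgebra ℤ (Lr G))
    (hK : ∀ s ∈ S, io 0 s ∈ K) (x : Lr G) : x ∈ K := by
  have h0 : ∀ g : G, io 0 g ∈ K := fun g =>
    (io_mem_of_gen (w := 0) K.toSubmodule.toAddSubgroup S (fun s hs => ⟨trivial, hK s hs⟩) g
      (by rw [hS]; trivial)).2
  have h1 : ∀ w, ∀ g ∈ gam G w, io w g ∈ K := by
    intro w
    induction w with
    | zero => intro g _; exact h0 g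
    | succ w ih =>
      intro g hg
      refine (io_mem_of_gen K.toSubmodule.toAddSubgroup _ ?_ g hg).2
      rintro _ ⟨p, hp, q, hq, rfl⟩
      refine ⟨comm_mem_gam (b := 0) hp hq, ?_⟩
      have := lie_io (b := 0) hp hq
      rw [add_zero] at this
      rw [← this]
      exact K.lie_mem (ih p hp) (h0 q)
  induction x using Lr.ind with
  | h0 => exact zero_mem _
  | h1 w g hg => exact h1 w g hg
  | h2 a b ha hb => exact add_mem ha hb

theorem smul_eq_zero_of_gen (S : Set G) (hS : Subgroup.closure S = ⊤) (e : ℕ)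
    (he : ∀ s ∈ S, s ^ e = 1) (x : Lr G) : e • x = 0 := by
  let K : LieSubalgebra ℤ (Lr G) :=
    { carrier := {x | e • x = 0}
      add_mem' := fun {a b} ha hb => by
        simp only [Set.mem_ofPred_eq] at ha hb ⊢
        rw [smul_add, ha, hb, add_zero]
      zero_mem' := by simp
      smul_mem' := fun c a ha => by
        simp only [Set.mem_ofPred_eq] at ha ⊢
        rw [smul_comm, ha, smul_zero]
      lie_mem' := fun {a b} _ hb => by
        simp only [Set.mem_ofPred_eq] at hb ⊢
        rw [← lie_nsmul, hb, lie_zero] }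
  refine lieSpan_top S hS K (fun s hs => ?_) x
  show e • io 0 s = 0
  rw [← io_pow (w := 0) trivial, he s hs, io_one]

end Pool.Agent.Lib.MP_dd8a4a_al
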