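import Mathlib
import Pool.Agent.Lib.MP_dd8a4a_al.Eigen
import Pool.Agent.Lib.MP_dd8a4a_al.GrLie

namespace Pool.Agent.Lib.MP_dd8a4a_al

open scoped commutatorElement

variable {G : Type*} [Group G]

theorem closure_normal_of_conj (T : Set G) (h : ∀ t ∈ T, ∀ g : G, g * t * g⁻¹ ∈ T) :
    (Subgroup.closure T).Normal := by
  constructor
  intro n hn g
  induction hn using Subgroup.closure_induction with
  | mem x hx => exact Subgroup.subset_closure (h x hx g)
  | one => simp
  | mul x y _ _ hx hy =>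
    have : g * (x * y) * g⁻¹ = (g * x * g⁻¹) * (g * y * g⁻¹) := by group
    rw [this]
    exact mul_mem hx hy
  | inv x _ hx =>
    have : g * x⁻¹ * g⁻¹ = (g * x * g⁻¹)⁻¹ := by group
    rw [this]
    exact inv_mem hx

theorem gam_eq_bot_of_stable {c : ℕ} (hn : ∃ n, gam G n = ⊥) (h : gam G c ≤ gam G (c + 1)) :
    gam G c = ⊥ := by
  obtain ⟨n, hn⟩ := hn
  have h1 : ∀ d, gam G (c + d) ≤ gam G (c + d + 1) := by
    intro d
    induction d with
    | zero => exact h
    | succ d ih => exact Subgroup.commutator_mono ih le_rfl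
  have h2 : ∀ d, gam G c ≤ gam G (c + d) := by
    intro d
    induction d with
    | zero => exact le_rfl
    | succ d ih => exact ih.trans (h1 d)
  rw [eq_bot_iff, ← hn]
  exact (h2 n).trans (gam_anti (by omega))

theorem class_bound (k q p : ℕ) [NeZero k] (hkq : k = q * p)
    (hu : ∀ t : ZMod k, IsUnit t ∨ p ∣ t.val) (hn : ∃ n, gam G n = ⊥) (φ : Monoid.End G)
    (hk : φ ^ k = 1) (hN : ∀ g, nrm φ g k = 1) (S : List G)
    (hS : Subgroup.closure {x | ∃ u ∈ S, ∃ i, (φ ^ i) u = x} = ⊤)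
    (hψ : ∀ u ∈ S, nrm (φ ^ q) u p = 1) (e : ℕ) (he : ∀ u ∈ S, u ^ e = 1)
    (hek : e.Coprime k.factorial) :
    gam G (cf (S.length * k) k (kr k)) = ⊥ ∧ ∀ g : G, g ^ e ^ (cf (S.length * k) k (kr k)) = 1 := by
  have hL : ∀ x : Lr G, e • x = 0 := by
    apply smul_eq_zero_of_gen _ hS
    rintro _ ⟨u, hu, i, rfl⟩
    rw [← map_pow, he u hu, map_one]
  have h := lie1 k q p hkq hu (mapL φ) (mapL_lie φ) (mapL_pow_one φ k hk) (mapL_norm φ k hN) e hL
    hek (S.map (io 0)) (by
      rw [eq_top_iff]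
      intro x _
      apply lieSpan_top _ hS
      rintro _ ⟨u, hu, i, rfl⟩
      apply LieSubalgebra.subset_lieSpan
      exact ⟨io 0 u, List.mem_map_of_mem hu, i, mapL_pow_io φ i (w := 0) trivial⟩) (by
      intro u' hu'
      obtain ⟨u, hu, rfl⟩ := List.mem_map.mp hu'
      simp only [mapL_pow_io φ _ (w := 0) (g := u) trivial]
      simp only [pow_mul]
      rw [← io_nrm (φ ^ q) (w := 0) trivial, hψ u hu, io_one])
  rw [List.length_map] at h
  have h1 : gam G (cf (S.length * k) k (kr k)) = ⊥ := by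
    apply gam_eq_bot_of_stable hn
    intro g hg
    apply io_eq_zero hg
    have := io_mem_lc _ g hg
    rw [h] at this
    simpa using this
  refine ⟨h1, fun g => ?_⟩
  have h2 : ∀ w, g ^ e ^ w ∈ gam G w := by
    intro w
    induction w with
    | zero => trivial
    | succ w ih =>
      rw [pow_succ, pow_mul]
      apply io_eq_zero (pow_mem ih e)
      rw [io_pow ih, hL]
  have := h2 (cf (S.length * k) k (kr k))
  rw [h1] at this
  simpa using this

section Theta

variable (θ : Monoid.End G) (hθ : ∀ g, io 0 (θ g) = 2 • io 0 g)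

include hθ in
theorem theta_io (w : ℕ) : ∀ g ∈ gam G w, mapL θ (io w g) = 2 ^ (w + 1) • io w g := by
  induction w with
  | zero => intro g hg; rw [mapL_io θ hg, hθ]; rfl
  | succ w ih =>
    intro g hg
    let P : AddSubgroup (Lr G) :=
      { carrier := {x | mapL θ x = 2 ^ (w + 1 + 1) • x}
        add_mem' := fun {a b} ha hb => by
          simp only [Set.mem_ofPred_eq] at ha hb ⊢
          rw [map_add, ha, hb, smul_add]
        zero_mem' := by simp
        neg_mem' := fun {a} ha => by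
          simp only [Set.mem_ofPred_eq] at ha ⊢
          rw [map_neg, ha, smul_neg] }
    refine (io_mem_of_gen P _ ?_ g hg).2
    rintro _ ⟨a, ha, b, hb, rfl⟩
    refine ⟨comm_mem_gam (b := 0) ha hb, ?_⟩
    have := lie_io (b := 0) ha hb
    rw [add_zero] at this
    show mapL θ _ = _
    rw [← this, mapL_lie, ih a ha, mapL_io θ (w := 0) hb, hθ, nsmul_lie, lie_nsmul, smul_smul,
      ← pow_succ]

include hθ in
theorem theta_mem {w : ℕ} {g : G} (hg : g ∈ gam G w) :
    θ g * (g ^ 2 ^ (w + 1))⁻¹ ∈ gam G (w + 1) := by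
  apply io_eq_zero (mul_mem (end_mem_gam θ hg) (inv_mem (pow_mem hg _)))
  rw [io_mul (end_mem_gam θ hg) (inv_mem (pow_mem hg _)), io_inv (pow_mem hg _), io_pow hg,
    ← mapL_io θ hg, theta_io θ hθ w g hg, add_neg_cancel]

def Tm (A : Subgroup G) (w : ℕ) : Set G :=
  {z | ∃ a b x y, w ≤ a + b + 1 ∧ x ∈ A ∧ x ∈ gam G a ∧ y ∈ A ∧ y ∈ gam G b ∧ ⁅x, y⁆ = z}

def Mm (A : Subgroup G) (w : ℕ) : Subgroup G := Subgroup.closure (Tm A w)

theorem comm_mem_Mm {A : Subgroup G} {w a b : ℕ} {x y : G} (h : w ≤ a + b + 1) (hx : x ∈ A)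
    (hx' : x ∈ gam G a) (hy : y ∈ A) (hy' : y ∈ gam G b) : ⁅x, y⁆ ∈ Mm A w :=
  Subgroup.subset_closure ⟨a, b, x, y, h, hx, hx', hy, hy', rfl⟩

theorem comm_mem_self {A : Subgroup G} {x y : G} (hx : x ∈ A) (hy : y ∈ A) : ⁅x, y⁆ ∈ A :=
  mul_mem (mul_mem (mul_mem hx hy) (inv_mem hx)) (inv_mem hy)

theorem Mm_le (A : Subgroup G) (w : ℕ) : ∀ z ∈ Mm A w, z ∈ A ∧ z ∈ gam G w := by
  have : Mm A w ≤ A ⊓ gam G w := by
    rw [Mm, Subgroup.closure_le]
    rintro _ ⟨a, b, x, y, h, hx, hx', hy, hy', rfl⟩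
    exact ⟨comm_mem_self hx hy, gam_anti h (comm_mem_gam hx' hy')⟩
  exact fun z hz => this hz

instance Mm_normal (A : Subgroup G) [hA : A.Normal] (w : ℕ) : (Mm A w).Normal := by
  apply closure_normal_of_conj
  rintro _ ⟨a, b, x, y, h, hx, hx', hy, hy', rfl⟩ g
  exact ⟨a, b, _, _, h, hA.conj_mem x hx g, conj_mem_gam hx' g, hA.conj_mem y hy g,
    conj_mem_gam hy' g, (conjugate_commutatorElement x y g).symm⟩

theorem Mm_theta (A : Subgroup G) (hA : ∀ x ∈ A, θ x ∈ A) (w : ℕ) :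
    ∀ z ∈ Mm A w, θ z ∈ Mm A w := by
  have : Mm A w ≤ (Mm A w).comap θ := by
    rw [Mm, Subgroup.closure_le]
    rintro _ ⟨a, b, x, y, h, hx, hx', hy, hy', rfl⟩
    show θ ⁅x, y⁆ ∈ Mm A w
    rw [map_commutatorElement]
    exact comm_mem_Mm h (hA x hx) (end_mem_gam θ hx') (hA y hy) (end_mem_gam θ hy')
  exact fun z hz => this hz

include hθ in
theorem theta_pow_mod (A : Subgroup G) [A.Normal] (hA : ∀ x ∈ A, θ x ∈ A) (w : ℕ) :
    ∀ z ∈ Mm A w, QuotientGroup.mk' (Mm A (w + 1)) (θ z)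
      = QuotientGroup.mk' (Mm A (w + 1)) z ^ 2 ^ (w + 1) := by
  set π := QuotientGroup.mk' (Mm A (w + 1)) with hπ
  have hker : ∀ z ∈ Mm A (w + 1), π z = 1 := fun z hz => (QuotientGroup.eq_one_iff z).mpr hz
  have hcen : ∀ x ∈ A, ∀ z ∈ A, z ∈ gam G w → Commute (π x) (π z) := by
    intro x hx z hz hz'
    rw [← commutatorElement_eq_one_iff_commute, ← map_commutatorElement]
    exact hker _ (comm_mem_Mm (a := 0) (by omega) hx trivial hz hz')
  intro z hz
  induction hz using Subgroup.closure_induction with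
  | one => simp
  | mul x y hx hy ihx ihy =>
    rw [map_mul, map_mul, map_mul, ihx, ihy,
      (hcen x (Mm_le A w x hx).1 y (Mm_le A w y hy).1 (Mm_le A w y hy).2).mul_pow]
  | inv x _ ih => rw [map_inv, map_inv, map_inv, ih, inv_pow]
  | mem z hz =>
    obtain ⟨a, b, x, y, h, hx, hx', hy, hy', rfl⟩ := hz
    by_cases hw : w + 1 ≤ a + b + 1
    · rw [hker _ (comm_mem_Mm hw hx hx' hy hy'), one_pow]
      exact hker _ (Mm_theta θ A hA _ _ (comm_mem_Mm hw hx hx' hy hy'))
    · have hw' : w = a + b + 1 := by omega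
      have bl : ∀ x ∈ A, ∀ x' ∈ A, x' ∈ gam G a → ∀ y ∈ A, y ∈ gam G b →
          π ⁅x * x', y⁆ = π ⁅x', y⁆ * π ⁅x, y⁆ := by
        intro x hx x' hx1 hx2 y hy1 hy2
        rw [commutatorElement_mul_left_eq_conj_mul, map_mul, map_mul, map_mul,
          (hcen x hx _ (comm_mem_self hx1 hy1) (hw' ▸ comm_mem_gam hx2 hy2)).eq, map_inv,
          mul_inv_cancel_right]
      have brr : ∀ x ∈ A, x ∈ gam G a → ∀ y ∈ A, ∀ y' ∈ A, y' ∈ gam G b →
          π ⁅x, y * y'⁆ = π ⁅x, y⁆ * π ⁅x, y'⁆ := by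
        intro x hx1 hx2 y hy y' hy1 hy2
        rw [commutatorElement_mul_right_eq_mul_conj, map_mul, map_mul, map_mul, mul_assoc (π _),
          (hcen y hy _ (comm_mem_self hx1 hy1) (hw' ▸ comm_mem_gam hx2 hy2)).eq, map_inv,
          ← mul_assoc, mul_inv_cancel_right]
      have pl : ∀ n : ℕ, ∀ y ∈ A, y ∈ gam G b → π ⁅x ^ n, y⁆ = π ⁅x, y⁆ ^ n := by
        intro n y hy1 hy2
        induction n with
        | zero => simp
        | succ n ih => rw [pow_succ, bl _ (pow_mem hx n) x hx hx' y hy1 hy2, ih, pow_succ']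
      have pr : ∀ n : ℕ, π ⁅x, y ^ n⁆ = π ⁅x, y⁆ ^ n := by
        intro n
        induction n with
        | zero => simp
        | succ n ih => rw [pow_succ, brr x hx hx' _ (pow_mem hy n) y hy hy', ih, pow_succ]
      have e1 : θ x = (θ x * (x ^ 2 ^ (a + 1))⁻¹) * x ^ 2 ^ (a + 1) := by group
      have e2 : θ y = (θ y * (y ^ 2 ^ (b + 1))⁻¹) * y ^ 2 ^ (b + 1) := by group
      have m1 : θ x * (x ^ 2 ^ (a + 1))⁻¹ ∈ A := mul_mem (hA x hx) (inv_mem (pow_mem hx _))
      have m2 : θ y * (y ^ 2 ^ (b + 1))⁻¹ ∈ A := mul_mem (hA y hy) (inv_mem (pow_mem hy _))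
      rw [map_commutatorElement θ, e1,
        bl _ m1 _ (pow_mem hx _) (pow_mem hx' _) _ (hA y hy) (end_mem_gam θ hy'),
        hker _ (comm_mem_Mm (by omega) m1 (theta_mem θ hθ hx') (hA y hy) (end_mem_gam θ hy')),
        mul_one, pl _ _ (hA y hy) (end_mem_gam θ hy'), e2,
        brr x hx hx' _ m2 _ (pow_mem hy _) (pow_mem hy' _),
        hker _ (comm_mem_Mm (by omega) hx hx' m2 (theta_mem θ hθ hy')), one_mul, pr,
        ← pow_mul, ← pow_add]
      congr 2
      omega

include hθ in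
theorem Mm_inf (c e : ℕ) (hc : gam G c = ⊥) (he : ∀ g : G, g ^ e = 1)
    (hec : e.Coprime (2 ^ c).factorial) (A : Subgroup G) [A.Normal] (hA : ∀ x ∈ A, θ x ∈ A)
    (w : ℕ) : ∀ z ∈ Mm A w, z ∈ gam G (w + 1) → z ∈ Mm A (w + 1) := by
  have key : ∀ d v, w + 1 ≤ v → c ≤ v + d → ∀ z ∈ Mm A w, z ∈ gam G v → z ∈ Mm A (w + 1) := by
    intro d
    have triv : ∀ v, c ≤ v → ∀ z, z ∈ gam G v → z ∈ Mm A (w + 1) := by
      intro v hv z hz
      have := gam_anti hv hz
      rw [hc, Subgroup.mem_bot] at this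
      rw [this]
      exact one_mem _
    induction d with
    | zero => intro v _ hv z _ hz; exact triv v hv z hz
    | succ d ih =>
      intro v hwv hv z hz hz'
      by_cases hcv : c ≤ v
      · exact triv v hcv z hz'
      · have h1 := ih (v + 1) (by omega) (by omega) _
          (mul_mem (Mm_theta θ A hA w z hz) (inv_mem (pow_mem hz _))) (theta_mem θ hθ hz')
        have h2 := theta_pow_mod θ hθ A hA w z hz
        set π := QuotientGroup.mk' (Mm A (w + 1)) with hπ
        have h3 : π (θ z * (z ^ 2 ^ (v + 1))⁻¹) = 1 := (QuotientGroup.eq_one_iff _).mpr h1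
        rw [map_mul, h2, map_inv, map_pow, mul_inv_eq_one] at h3
        have hlt : 2 ^ (w + 1) < 2 ^ (v + 1) := Nat.pow_lt_pow_right (by norm_num) (by omega)
        have hle : 2 ^ (v + 1) ≤ 2 ^ c := Nat.pow_le_pow_right (by norm_num) (by omega)
        have h4 : π z ^ (2 ^ (v + 1) - 2 ^ (w + 1)) = 1 := by
          have : π z ^ 2 ^ (v + 1) = π z ^ (2 ^ (v + 1) - 2 ^ (w + 1)) * π z ^ 2 ^ (w + 1) := by
            rw [← pow_add, Nat.sub_add_cancel hlt.le]
          rw [← h3] at this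
          exact (right_eq_mul.mp this)
        have h5 : π z ^ e = 1 := by rw [← map_pow, he, map_one]
        have h6 : e.Coprime (2 ^ (v + 1) - 2 ^ (w + 1)) :=
          hec.coprime_dvd_right (Nat.dvd_factorial (Nat.sub_pos_of_lt hlt)
            ((Nat.sub_le _ _).trans hle))
        have h7 := pow_gcd_eq_one.mpr ⟨h5, h4⟩
        rw [h6.gcd_eq_one, pow_one] at h7
        exact (QuotientGroup.eq_one_iff _).mp h7
  exact key c (w + 1) le_rfl (by omega)

include hθ in
theorem derived_io (c e : ℕ) (hc : gam G c = ⊥) (he : ∀ g : G, g ^ e = 1)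
    (hec : e.Coprime (2 ^ c).factorial) (j : ℕ) :
    ∀ w, ∀ g ∈ derivedSeries G j, g ∈ gam G w → io w g ∈ LieAlgebra.derivedSeries ℤ (Lr G) j := by
  induction j with
  | zero => intro w g _ _; trivial
  | succ j ih =>
    have hn := derivedSeries_normal G j
    have hA : ∀ x ∈ derivedSeries G j, θ x ∈ derivedSeries G j := fun x hx =>
      map_derivedSeries_le_derivedSeries θ j (Subgroup.mem_map_of_mem θ hx)
    have h1 : ∀ w, ∀ g ∈ derivedSeries G (j + 1), g ∈ gam G w → g ∈ Mm (derivedSeries G j) w := by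
      intro w
      induction w with
      | zero =>
        intro g hg _
        have : derivedSeries G (j + 1) ≤ Mm (derivedSeries G j) 0 := by
          rw [derivedSeries_succ, Subgroup.commutator_le]
          intro x hx y hy
          exact comm_mem_Mm (a := 0) (b := 0) (by omega) hx trivial hy trivial
        exact this hg
      | succ w ihw =>
        intro g hg hg'
        exact Mm_inf θ hθ c e hc he hec _ hA w g (ihw g hg (gam_succ_le _ hg')) hg'
    intro w g hg hg'
    refine (io_mem_of_gen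
      (LieAlgebra.derivedSeries ℤ (Lr G) (j + 1)).toSubmodule.toAddSubgroup _ ?_ g
      (h1 w g hg hg')).2
    rintro _ ⟨a, b, x, y, h, hx, hx', hy, hy', rfl⟩
    refine ⟨gam_anti h (comm_mem_gam hx' hy'), ?_⟩
    by_cases hw : w + 1 ≤ a + b + 1
    · rw [io_succ (gam_anti hw (comm_mem_gam hx' hy'))]
      exact zero_mem _
    · have hw' : w = a + b + 1 := by omega
      rw [hw', ← lie_io hx' hy']
      show _ ∈ LieAlgebra.derivedSeries ℤ (Lr G) (j + 1)
      rw [LieAlgebra.derivedSeries_def, LieAlgebra.derivedSeriesOfIdeal_succ]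
      exact LieSubmodule.lie_mem_lie (ih a x hx hx') (ih b y hy hy')

include hθ in
theorem derived_bot (c e : ℕ) (hc : gam G c = ⊥) (he : ∀ g : G, g ^ e = 1)
    (hec : e.Coprime (2 ^ c).factorial) (j : ℕ) (hj : LieAlgebra.derivedSeries ℤ (Lr G) j = ⊥) :
    derivedSeries G j = ⊥ := by
  rw [eq_bot_iff, ← hc]
  intro g hg
  have : ∀ w, g ∈ gam G w := by
    intro w
    induction w with
    | zero => trivial
    | succ w ih =>
      apply io_eq_zero ih
      have := derived_io θ hθ c e hc he hec j w g hg ih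
      rw [hj] at this
      simpa using this
  exact this c

end Theta

end Pool.Agent.Lib.MP_dd8a4a_al
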