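import Mathlib
import Pool.Agent.Lib.MP_dd8a4a_al.Theta

namespace Pool.Agent.Lib.MP_dd8a4a_al

open scoped commutatorElement

variable {G : Type*} [Group G]

theorem intertw_pow {H : Type*} [Group H] (f : H →* G) (α : Monoid.End H) (β : Monoid.End G)
    (h : ∀ x, f (α x) = β (f x)) (j : ℕ) (x : H) : f ((α ^ j) x) = (β ^ j) (f x) := by
  induction j with
  | zero => rfl
  | succ j ih =>
    rw [pow_succ', pow_succ']
    show f (α ((α ^ j) x)) = β ((β ^ j) (f x))
    rw [h, ih]

theorem intertw_nrm {H : Type*} [Group H] (f : H →* G) (α : Monoid.End H) (β : Monoid.End G)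
    (h : ∀ x, f (α x) = β (f x)) (j : ℕ) (x : H) : f (nrm α x j) = nrm β (f x) j := by
  induction j with
  | zero => simp [nrm]
  | succ j ih => rw [nrm, nrm, map_mul, ih, intertw_pow f α β h]

def restr (φ : Monoid.End G) (H : Subgroup G) (h : ∀ x ∈ H, φ x ∈ H) : Monoid.End H :=
  ((φ : G →* G).comp H.subtype).codRestrict H fun x => h x x.2

theorem restr_coe (φ : Monoid.End G) (H : Subgroup G) (h : ∀ x ∈ H, φ x ∈ H) (x : H) :
    H.subtype (restr φ H h x) = φ (H.subtype x) := rfl

theorem closure_inv (φ : Monoid.End G) (T : Set G) (h : ∀ t ∈ T, φ t ∈ Subgroup.closure T) :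
    ∀ x ∈ Subgroup.closure T, φ x ∈ Subgroup.closure T := by
  have : Subgroup.closure T ≤ (Subgroup.closure T).comap φ := by
    rw [Subgroup.closure_le]
    exact h
  exact fun x hx => this hx

theorem lazard_free {B : Type*} [Group B] (k : ℕ) [NeZero k] (φ : Monoid.End B) (hk : φ ^ k = 1)
    (hN : ∀ g, nrm φ g k = 1) (c e : ℕ) (hc : gam B c = ⊥) (he : ∀ g : B, g ^ e = 1)
    (hec : e.Coprime (2 ^ c).factorial) (hek : e.Coprime k) : derivedSeries B (kr k) = ⊥ := by
  let X : B → (ℕ → B) := fun s n => s ^ 2 ^ n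
  let Γ : Subgroup (ℕ → B) := Subgroup.closure (Set.range X)
  let σ : Monoid.End (ℕ → B) :=
    { toFun := fun f n => f (n + 1), map_one' := rfl, map_mul' := fun _ _ => rfl }
  let Φ : Monoid.End (ℕ → B) :=
    { toFun := fun f n => φ (f n)
      map_one' := funext fun _ => map_one φ
      map_mul' := fun _ _ => funext fun _ => map_mul φ _ _ }
  have hσX : ∀ s, σ (X s) = X s ^ 2 := by
    intro s
    funext n
    show s ^ 2 ^ (n + 1) = (s ^ 2 ^ n) ^ 2
    rw [← pow_mul, pow_succ]
  have hσ : ∀ x ∈ Γ, σ x ∈ Γ := by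
    apply closure_inv
    rintro _ ⟨s, rfl⟩
    rw [hσX]
    exact pow_mem (Subgroup.subset_closure (Set.mem_range_self s)) 2
  have hΦ : ∀ x ∈ Γ, Φ x ∈ Γ := by
    apply closure_inv
    rintro _ ⟨s, rfl⟩
    refine Subgroup.subset_closure ⟨φ s, ?_⟩
    funext n
    exact (map_pow φ s _).symm
  let ev : ℕ → Γ →* B := fun n => (Pi.evalMonoidHom (fun _ : ℕ => B) n).comp Γ.subtype
  have hev : ∀ n x, ev n (restr Φ Γ hΦ x) = φ (ev n x) := fun _ _ => rfl
  have hinj : ∀ x y : Γ, (∀ n, ev n x = ev n y) → x = y := fun x y h => Subtype.ext (funext h)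
  have hgen : Subgroup.closure (((↑) : Γ → (ℕ → B)) ⁻¹' Set.range X) = ⊤ :=
    Subgroup.closure_closure_coe_preimage
  have heΓ : ∀ g : Γ, g ^ e = 1 := fun g => hinj _ _ fun n => by rw [map_pow, he, map_one]
  have hL : LieAlgebra.derivedSeries ℤ (Lr Γ) (kr k) = ⊥ := by
    apply lie0 k (mapL (restr Φ Γ hΦ)) (mapL_lie _) (mapL_pow_one _ k _) (mapL_norm _ k _) e
      (smul_eq_zero_of_gen _ hgen e fun s _ => heΓ s) hek
    · apply MonoidHom.ext
      intro x
      apply hinj
      intro n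
      have := intertw_pow (ev n) _ φ (hev n) k x
      rw [hk] at this
      exact this
    · intro g
      apply hinj
      intro n
      rw [intertw_nrm (ev n) _ φ (hev n), hN, map_one]
  have hθ : ∀ g : Γ, io 0 (restr σ Γ hσ g) = 2 • io 0 g := by
    intro g
    have hg : g ∈ Subgroup.closure (((↑) : Γ → (ℕ → B)) ⁻¹' Set.range X) := by
      rw [hgen]; trivial
    induction hg using Subgroup.closure_induction with
    | mem x hx =>
      obtain ⟨s, hs⟩ := hx
      have : restr σ Γ hσ x = x ^ 2 := by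
        apply Subtype.ext
        show σ x = (x : ℕ → B) ^ 2
        rw [← hs, hσX]
      rw [this, io_pow (w := 0) trivial]
    | one => simp [io_one]
    | mul x y _ _ hx hy =>
      rw [map_mul, io_mul (w := 0) trivial trivial, io_mul (w := 0) trivial trivial, hx, hy,
        smul_add]
    | inv x _ hx =>
      rw [map_inv, io_inv (w := 0) trivial, io_inv (w := 0) trivial, hx, smul_neg]
  have hcΓ : gam Γ c = ⊥ := by
    rw [eq_bot_iff]
    intro x hx
    rw [Subgroup.mem_bot]
    apply hinj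
    intro n
    have := map_mem_gam (ev n) hx
    rw [hc, Subgroup.mem_bot] at this
    rw [this, map_one]
  have h := derived_bot (restr σ Γ hσ) hθ c e hcΓ heΓ hec (kr k) hL
  have hsurj : Function.Surjective (ev 0) := fun s =>
    ⟨⟨X s, Subgroup.subset_closure ⟨s, rfl⟩⟩, by
      show s ^ 2 ^ 0 = s
      simp⟩
  rw [← map_derivedSeries_eq hsurj, h, Subgroup.map_bot]

/-- derived series of a subgroup -/
def der (H : Subgroup G) : ℕ → Subgroup G
  | 0 => H
  | j + 1 => ⁅der H j, der H j⁆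

theorem der_eq_map (H : Subgroup G) (j : ℕ) : der H j = (derivedSeries H j).map H.subtype := by
  induction j with
  | zero => simp [der, ← MonoidHom.range_eq_map]
  | succ j ih => rw [der, derivedSeries_succ, Subgroup.map_commutator, ih]

theorem der_mono {H K : Subgroup G} (h : H ≤ K) (j : ℕ) : der H j ≤ der K j := by
  induction j with
  | zero => exact h
  | succ j ih => exact Subgroup.commutator_mono ih ih

theorem der_derived (f j : ℕ) : derivedSeries G (f + j) = der (derivedSeries G f) j := by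
  induction j with
  | zero => rfl
  | succ j ih => rw [← add_assoc, derivedSeries_succ, der, ih]

def orb (φ : Monoid.End G) (S : List G) : Subgroup G :=
  Subgroup.closure {x | ∃ u ∈ S, ∃ i, (φ ^ i) u = x}

def Tb (k r : ℕ) : ℕ := k.factorial * (2 ^ cf (r * k) k (kr k)).factorial

theorem thmK (k q p : ℕ) [NeZero k] (hkq : k = q * p)
    (hu : ∀ t : ZMod k, IsUnit t ∨ p ∣ t.val) (hn : ∃ n, gam G n = ⊥) (φ : Monoid.End G)
    (hk : φ ^ k = 1) (hN : ∀ g, nrm φ g k = 1) (S : List G)
    (hψ : ∀ u ∈ S, nrm (φ ^ q) u p = 1) (e : ℕ) (he : ∀ u ∈ S, u ^ e = 1)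
    (hek : e.Coprime (Tb k S.length)) : der (orb φ S) (kr k) = ⊥ := by
  have hkpos : 0 < k := Nat.pos_of_ne_zero (NeZero.ne k)
  have hinv : ∀ x ∈ orb φ S, φ x ∈ orb φ S := by
    apply closure_inv
    rintro _ ⟨u, hu, i, rfl⟩
    exact Subgroup.subset_closure ⟨u, hu, i + 1, by rw [pow_succ']; rfl⟩
  have hmem : ∀ u ∈ S, u ∈ orb φ S := fun u hu => Subgroup.subset_closure ⟨u, hu, 0, rfl⟩
  let S' : List (orb φ S) := S.pmap Subtype.mk hmem
  have hS' : ∀ u : orb φ S, u ∈ S' ↔ (u : G) ∈ S := by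
    intro u
    simp only [S', List.mem_pmap]
    constructor
    · rintro ⟨a, ha, rfl⟩
      exact ha
    · intro h
      exact ⟨u, h, rfl⟩
  have hlen : S'.length = S.length := by simp [S']
  set α := restr φ (orb φ S) hinv with hα
  have hi : ∀ x, (orb φ S).subtype (α x) = φ ((orb φ S).subtype x) := fun _ => rfl
  have hαk : α ^ k = 1 := by
    apply MonoidHom.ext
    intro x
    apply Subtype.ext
    have := intertw_pow _ α φ hi k x
    rw [hk] at this
    exact this
  have hαN : ∀ g, nrm α g k = 1 := by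
    intro g
    apply Subtype.ext
    have := intertw_nrm _ α φ hi k g
    rw [hN] at this
    exact this
  have e1 : e.Coprime k.factorial := hek.coprime_dvd_right (Dvd.intro _ rfl)
  have e2 : e.Coprime (2 ^ cf (S.length * k) k (kr k)).factorial :=
    hek.coprime_dvd_right (Dvd.intro_left _ rfl)
  obtain ⟨h1, h2⟩ := class_bound (G := orb φ S) k q p hkq hu (by
      obtain ⟨n, hn⟩ := hn
      refine ⟨n, ?_⟩
      rw [eq_bot_iff]
      intro x hx
      have := map_mem_gam (orb φ S).subtype hx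
      rw [hn, Subgroup.mem_bot] at this
      exact Subtype.ext this) α hαk hαN S' (by
      rw [eq_top_iff]
      refine (Subgroup.closure_closure_coe_preimage
        (k := {x | ∃ u ∈ S, ∃ i, (φ ^ i) u = x})).ge.trans ?_
      apply Subgroup.closure_mono
      rintro x ⟨u, hu, i, hx⟩
      refine ⟨⟨u, hmem u hu⟩, (hS' _).mpr hu, i, Subtype.ext ?_⟩
      rw [← hx]
      exact intertw_pow _ α φ hi i _) (by
      intro u hu
      apply Subtype.ext
      have := intertw_nrm _ (α ^ q) (φ ^ q) (intertw_pow _ α φ hi q) p u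
      rw [show (orb φ S).subtype u = (u : G) from rfl, hψ _ ((hS' u).mp hu)] at this
      exact this) e (fun u hu => Subtype.ext (he _ ((hS' u).mp hu))) e1
  rw [hlen] at h1 h2
  have h3 := lazard_free k α hαk hαN _ _ h1 h2 (Nat.Coprime.pow_left _ e2)
    (Nat.Coprime.pow_left _ (e1.coprime_dvd_right (Nat.dvd_factorial hkpos le_rfl)))
  rw [der_eq_map, h3, Subgroup.map_bot]

theorem nrm_add (φ : Monoid.End G) (g : G) (a b : ℕ) :
    nrm φ g (a + b) = nrm φ g a * (φ ^ a) (nrm φ g b) := by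
  induction b with
  | zero => simp [nrm]
  | succ b ih =>
    rw [← add_assoc, nrm, nrm, ih, map_mul, mul_assoc, pow_add]
    rfl

theorem nrm_mul (φ : Monoid.End G) (g : G) (q : ℕ) (h : φ ^ q = 1) (p : ℕ) :
    nrm φ g (q * p) = nrm φ g q ^ p := by
  induction p with
  | zero => simp [nrm]
  | succ p ih =>
    rw [mul_add, mul_one, nrm_add, ih, pow_mul, h, one_pow, pow_succ]
    rfl

theorem nrm_unit (ψ : Monoid.End G) (g : G) (j : ℕ) :
    nrm ψ (g⁻¹ * ψ g) j = g⁻¹ * (ψ ^ j) g := by
  induction j with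
  | zero => simp [nrm]
  | succ j ih =>
    rw [nrm, ih, map_mul, map_inv, pow_succ]
    show _ = g⁻¹ * (ψ ^ j) (ψ g)
    group

def Xs (ψ : Monoid.End G) : ℕ → Set G
  | 0 => {z | ∃ g h, h * (g⁻¹ * ψ g) * h⁻¹ = z}
  | j + 1 => {z | ∃ a ∈ Xs ψ j, ∃ b ∈ Xs ψ j, ⁅a, b⁆ = z}

theorem Xs_conj (ψ : Monoid.End G) (j : ℕ) : ∀ t ∈ Xs ψ j, ∀ g : G, g * t * g⁻¹ ∈ Xs ψ j := by
  induction j with
  | zero =>
    rintro _ ⟨g, h, rfl⟩ x
    exact ⟨g, x * h, by group⟩
  | succ j ih =>
    rintro _ ⟨a, ha, b, hb, rfl⟩ x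
    exact ⟨_, ih a ha x, _, ih b hb x, (conjugate_commutatorElement a b x).symm⟩

theorem der_le_Xs (ψ : Monoid.End G) (j : ℕ) :
    der (Subgroup.closure (Xs ψ 0)) j ≤ Subgroup.closure (Xs ψ j) := by
  induction j with
  | zero => exact le_rfl
  | succ j ih =>
    refine (Subgroup.commutator_mono ih ih).trans ?_
    have hn := closure_normal_of_conj _ (Xs_conj ψ (j + 1))
    rw [Subgroup.commutator_le]
    intro a ha b hb
    rw [← QuotientGroup.eq_one_iff]
    have : Commute (QuotientGroup.mk' (Subgroup.closure (Xs ψ (j + 1))) a)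
        (QuotientGroup.mk' (Subgroup.closure (Xs ψ (j + 1))) b) := by
      induction ha, hb using Subgroup.closure_induction₂ with
      | mem x y hx hy =>
        rw [← commutatorElement_eq_one_iff_commute, ← map_commutatorElement]
        exact (QuotientGroup.eq_one_iff _).mpr (Subgroup.subset_closure ⟨x, hx, y, hy, rfl⟩)
      | one_left x _ => simp
      | one_right x _ => simp
      | mul_left x y z _ _ _ h1 h2 => rw [map_mul]; exact h1.mul_left h2
      | mul_right x y z _ _ _ h1 h2 => rw [map_mul]; exact h1.mul_right h2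
      | inv_left x y _ _ h => rw [map_inv]; exact h.inv_left
      | inv_right x y _ _ h => rw [map_inv]; exact h.inv_right
    rw [← commutatorElement_eq_one_iff_commute, ← map_commutatorElement] at this
    exact this

theorem orb_mono (φ : Monoid.End G) {S S' : List G} (h : ∀ u ∈ S, u ∈ S') : orb φ S ≤ orb φ S' := by
  apply Subgroup.closure_mono
  rintro _ ⟨u, hu, i, rfl⟩
  exact ⟨u, h u hu, i, rfl⟩

theorem Xs_mem (φ ψ : Monoid.End G) (j : ℕ) : ∀ a ∈ Xs ψ j, ∃ S : List G, S.length = 2 ^ (j + 1) ∧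
    (∀ u ∈ S, ∃ g, u = g⁻¹ * ψ g) ∧ a ∈ der (orb φ S) j := by
  induction j with
  | zero =>
    rintro _ ⟨g, h, rfl⟩
    refine ⟨[(g * h⁻¹)⁻¹ * ψ (g * h⁻¹), (h⁻¹)⁻¹ * ψ h⁻¹], rfl, ?_, ?_⟩
    · intro u hu
      simp only [List.mem_cons, List.not_mem_nil, or_false] at hu
      rcases hu with rfl | rfl
      · exact ⟨_, rfl⟩
      · exact ⟨_, rfl⟩
    · have : h * (g⁻¹ * ψ g) * h⁻¹ = ((g * h⁻¹)⁻¹ * ψ (g * h⁻¹)) * ((h⁻¹)⁻¹ * ψ h⁻¹)⁻¹ := by
        rw [map_mul]
        group
      rw [this]
      exact mul_mem (Subgroup.subset_closure ⟨_, List.mem_cons_self, 0, rfl⟩)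
        (inv_mem (Subgroup.subset_closure
          ⟨_, List.mem_cons_of_mem _ List.mem_cons_self, 0, rfl⟩))
  | succ j ih =>
    rintro _ ⟨a, ha, b, hb, rfl⟩
    obtain ⟨S1, l1, u1, m1⟩ := ih a ha
    obtain ⟨S2, l2, u2, m2⟩ := ih b hb
    refine ⟨S1 ++ S2, by rw [List.length_append, l1, l2]; ring, ?_, ?_⟩
    · intro u hu
      rcases List.mem_append.mp hu with h | h
      · exact u1 u h
      · exact u2 u h
    · exact Subgroup.commutator_mem_commutator
        (der_mono (orb_mono φ fun u hu => List.mem_append_left _ hu) j m1)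
        (der_mono (orb_mono φ fun u hu => List.mem_append_right _ hu) j m2)

theorem common_exp (T : ℕ) (h : ∀ g : G, ∃ e, e.Coprime T ∧ g ^ e = 1) (S : List G) :
    ∃ e, e.Coprime T ∧ ∀ u ∈ S, u ^ e = 1 := by
  induction S with
  | nil => exact ⟨1, by simp, by simp⟩
  | cons a S ih =>
    obtain ⟨e, he, hS⟩ := ih
    obtain ⟨e', he', ha⟩ := h a
    refine ⟨e * e', Nat.Coprime.mul_left he he', fun u hu => ?_⟩
    rcases List.mem_cons.mp hu with rfl | hu
    · rw [mul_comm, pow_mul, ha, one_pow]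
    · rw [pow_mul, hS u hu, one_pow]

theorem eq_one_of_coprime {g : G} {a b : ℕ} (h : a.Coprime b) (ha : g ^ a = 1) (hb : g ^ b = 1) :
    g = 1 := by
  have := pow_gcd_eq_one.mpr ⟨ha, hb⟩
  rwa [h.gcd_eq_one, pow_one] at this

universe u

theorem main_aux (p : ℕ) (hp : p.Prime) (n : ℕ) : ∃ f T : ℕ, T ≠ 0 ∧
    ∀ (G : Type u) [Group G] (φ : Monoid.End G), (∃ m, gam G m = ⊥) → φ ^ p ^ n = 1 →
      (∀ g, nrm φ g (p ^ n) = 1) → (∀ g : G, ∃ e, e.Coprime T ∧ g ^ e = 1) →
      derivedSeries G f = ⊥ := by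
  induction n with
  | zero =>
    refine ⟨0, 1, one_ne_zero, fun G _ φ _ _ hN _ => ?_⟩
    rw [eq_bot_iff]
    intro g _
    have := hN g
    simpa [nrm] using this
  | succ n ih =>
    obtain ⟨f, T, hT, ih⟩ := ih
    have : NeZero (p ^ (n + 1)) := ⟨pow_ne_zero _ hp.ne_zero⟩
    refine ⟨f + kr (p ^ (n + 1)), T * p * Tb (p ^ (n + 1)) (2 ^ (kr (p ^ (n + 1)) + 1)),
      mul_ne_zero (mul_ne_zero hT hp.ne_zero)
        (mul_ne_zero (Nat.factorial_ne_zero _) (Nat.factorial_ne_zero _)), ?_⟩
    intro G _ φ hn hk hN hT'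
    set ψ := φ ^ p ^ n with hψ
    have hnorm := closure_normal_of_conj _ (Xs_conj ψ 0)
    set N := Subgroup.closure (Xs ψ 0) with hNdef
    have hinv : ∀ x ∈ N, φ x ∈ N := by
      apply closure_inv
      rintro _ ⟨g, h, rfl⟩
      refine Subgroup.subset_closure ⟨φ g, φ h, ?_⟩
      have : ψ (φ g) = φ (ψ g) := by
        show (ψ * φ) g = (φ * ψ) g
        rw [hψ, ← pow_succ, ← pow_succ']
      simp only [map_mul, map_inv, this]
    let α : Monoid.End (G ⧸ N) := QuotientGroup.map N N φ hinv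
    have hi : ∀ x, QuotientGroup.mk' N (φ x) = α (QuotientGroup.mk' N x) := fun _ => rfl
    have hαq : α ^ p ^ n = 1 := by
      apply MonoidHom.ext
      intro x
      obtain ⟨g, rfl⟩ := QuotientGroup.mk'_surjective N x
      have := intertw_pow _ φ α hi (p ^ n) g
      refine this.symm.trans ?_
      show ((ψ g : G) : G ⧸ N) = (g : G ⧸ N)
      rw [eq_comm, QuotientGroup.eq]
      exact Subgroup.subset_closure ⟨g, 1, by simp⟩
    have hexp : ∀ x : G ⧸ N, ∃ e, e.Coprime (T * p) ∧ x ^ e = 1 := by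
      intro x
      obtain ⟨g, rfl⟩ := QuotientGroup.mk'_surjective N x
      obtain ⟨e, he, hg⟩ := hT' g
      exact ⟨e, he.coprime_dvd_right (Dvd.intro _ rfl), by rw [← map_pow, hg, map_one]⟩
    have h1 := ih (G ⧸ N) α (by
        obtain ⟨m, hm⟩ := hn
        refine ⟨m, ?_⟩
        have := Subgroup.map_lowerCentralSeries ⊤ (QuotientGroup.mk' N) m
        rw [Subgroup.map_top_of_surjective _ (QuotientGroup.mk'_surjective N)] at this
        show Subgroup.lowerCentralSeries ⊤ m = ⊥
        rw [← this]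
        show Subgroup.map _ (gam G m) = ⊥
        rw [hm, Subgroup.map_bot]) hαq (by
        intro x
        obtain ⟨e, he, hx⟩ := hexp (nrm α x (p ^ n))
        apply eq_one_of_coprime (he.coprime_dvd_right (Dvd.intro_left _ rfl)) hx
        rw [← nrm_mul α x _ hαq, ← pow_succ]
        obtain ⟨g, rfl⟩ := QuotientGroup.mk'_surjective N x
        rw [← intertw_nrm _ φ α hi, hN, map_one]) (by
        intro x
        obtain ⟨e, he, hx⟩ := hexp x
        exact ⟨e, he.coprime_dvd_right (Dvd.intro _ rfl), hx⟩)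
    rw [← map_derivedSeries_eq (QuotientGroup.mk'_surjective N), Subgroup.map_eq_bot_iff,
      QuotientGroup.ker_mk'] at h1
    rw [eq_bot_iff, der_derived]
    refine (der_mono h1 _).trans ((der_le_Xs ψ _).trans ?_)
    rw [Subgroup.closure_le]
    intro a ha
    obtain ⟨S, hl, hS, ha⟩ := Xs_mem φ ψ _ a ha
    obtain ⟨e, he, hSe⟩ := common_exp _ hT' S
    have := thmK (p ^ (n + 1)) (p ^ n) p (pow_succ p n) (by
        intro t
        by_cases h : p ∣ t.val
        · exact Or.inr h
        · left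
          rw [← ZMod.natCast_zmod_val t, ZMod.isUnit_iff_coprime]
          exact Nat.Coprime.pow_right _ ((Nat.Prime.coprime_iff_not_dvd hp).mpr h).symm)
      hn φ hk hN S (by
        intro u hu
        obtain ⟨g, rfl⟩ := hS u hu
        rw [← hψ, nrm_unit, hψ, ← pow_mul, ← pow_succ, hk]
        simp) e hSe (by rw [hl]; exact he.coprime_dvd_right (Dvd.intro_left _ rfl))
    rw [this] at ha
    exact ha

theorem norm_of_fpf (hG : Group.IsNilpotent G) (φ : Monoid.End G) (k : ℕ) (hk0 : k ≠ 0)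
    (hk : φ ^ k = 1) (hf : ∀ g, φ g = g → g = 1) (he : ∀ g : G, ∃ e, e.Coprime k ∧ g ^ e = 1)
    (g : G) : nrm φ g k = 1 := by
  have hsurj : Function.Surjective φ := by
    intro y
    obtain ⟨j, rfl⟩ := Nat.exists_eq_succ_of_ne_zero hk0
    refine ⟨(φ ^ j) y, ?_⟩
    show (φ * φ ^ j) y = y
    rw [← pow_succ', hk]
    rfl
  have hZ : ∀ i, ∀ x ∈ Subgroup.upperCentralSeries G i, φ x ∈ Subgroup.upperCentralSeries G i := by
    intro i
    induction i with
    | zero =>
      intro x hx
      rw [Subgroup.upperCentralSeries_zero, Subgroup.mem_bot] at hx ⊢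
      rw [hx, map_one]
    | succ i ih =>
      intro x hx
      rw [Subgroup.mem_upperCentralSeries_succ_iff] at hx ⊢
      intro y
      obtain ⟨z, rfl⟩ := hsurj y
      have := ih _ (hx z)
      rwa [map_commutatorElement] at this
  have F1 : ∀ g, φ (nrm φ g k) = g⁻¹ * nrm φ g k * g := by
    intro g
    have h1 := nrm_add φ g 1 k
    rw [add_comm, nrm, hk] at h1
    have h2 : nrm φ g k * g = g * φ (nrm φ g k) := by simpa [nrm] using h1
    rw [mul_assoc, h2]
    group
  have F3 : ∀ i, ∀ z ∈ Subgroup.upperCentralSeries G (i + 1), ∀ g : G,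
      z⁻¹ * g⁻¹ * z * g ∈ Subgroup.upperCentralSeries G i := by
    intro i z hz g
    have := Subgroup.mem_upperCentralSeries_succ_iff.mp (inv_mem hz) g⁻¹
    simpa [commutatorElement_def] using this
  have P : ∀ i, ∀ g, g⁻¹ * φ g ∈ Subgroup.upperCentralSeries G i →
      g ∈ Subgroup.upperCentralSeries G i := by
    intro i
    induction i with
    | zero =>
      intro g hg
      rw [Subgroup.upperCentralSeries_zero, Subgroup.mem_bot] at hg ⊢
      exact hf g (inv_mul_eq_one.mp hg).symm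
    | succ i ih =>
      intro g hg
      set π := QuotientGroup.mk' (Subgroup.upperCentralSeries G (i + 1)) with hπ
      have h1 : ∀ j, g⁻¹ * (φ ^ j) g ∈ Subgroup.upperCentralSeries G (i + 1) := by
        intro j
        induction j with
        | zero => simp
        | succ j ihj =>
          have : g⁻¹ * (φ ^ (j + 1)) g = (g⁻¹ * φ g) * φ (g⁻¹ * (φ ^ j) g) := by
            rw [pow_succ', map_mul, map_inv]
            show g⁻¹ * φ ((φ ^ j) g) = _
            group
          rw [this]
          exact mul_mem hg (hZ _ _ ihj)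
      have h2 : ∀ j, π (nrm φ g j) = π g ^ j := by
        intro j
        induction j with
        | zero => simp [nrm]
        | succ j ihj =>
          rw [nrm, map_mul, ihj, pow_succ]
          congr 1
          exact (QuotientGroup.eq.mpr (h1 j)).symm
      have h3 : (g ^ k)⁻¹ * nrm φ g k ∈ Subgroup.upperCentralSeries G (i + 1) := by
        apply QuotientGroup.eq.mp
        have := h2 k
        rw [← map_pow] at this
        exact this.symm
      have h4 := F3 i _ h3 g
      have h5 : nrm φ g k ∈ Subgroup.upperCentralSeries G i := by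
        apply ih
        rw [F1]
        convert h4 using 1
        group
      have h6 : π (nrm φ g k) = 1 := (QuotientGroup.eq_one_iff _).mpr
        (Subgroup.upperCentralSeries_mono G (Nat.le_succ i) h5)
      obtain ⟨e, he1, he2⟩ := he g
      have : π g = 1 := eq_one_of_coprime he1 (by rw [← map_pow, he2, map_one]) (by rw [← h2, h6])
      exact (QuotientGroup.eq_one_iff _).mp this
  have Q : ∀ i, nrm φ g k ∈ Subgroup.upperCentralSeries G i → nrm φ g k = 1 := by
    intro i
    induction i with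
    | zero => intro h; simpa using h
    | succ i ih =>
      intro h
      apply ih
      apply P
      rw [F1]
      simpa [mul_assoc] using F3 i _ h g
  obtain ⟨c, hc⟩ := hG.nilpotent'
  exact Q c (by rw [hc]; trivial)

theorem main_thm (p n : ℕ) (hp : p.Prime) : ∃ f q₀ : ℕ,
    ∀ (G : Type u) [Group G], Group.IsNilpotent G → (∀ g : G, IsOfFinOrder g) →
      (∀ g : G, (orderOf g).Prime → q₀ ≤ orderOf g) →
      ∀ φ : MulAut G, φ ^ p ^ n = 1 → (∀ g : G, φ g = g → g = 1) → derivedSeries G f = ⊥ := by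
  obtain ⟨f, T, hT, h⟩ := main_aux.{u} p hp n
  refine ⟨f, T * p + 1, fun G _ hG ht hq φ hφ hf => ?_⟩
  have hT0 : T * p ≠ 0 := mul_ne_zero hT hp.ne_zero
  have he : ∀ g : G, ∃ e, e.Coprime (T * p) ∧ g ^ e = 1 := by
    intro g
    refine ⟨orderOf g, ?_, pow_orderOf_eq_one g⟩
    apply Nat.Coprime.symm
    apply Nat.coprime_of_dvd
    intro r hr hrT hrg
    have h0 : orderOf g ≠ 0 := (ht g).orderOf_pos.ne'
    have h1 : orderOf (g ^ (orderOf g / r)) = r := orderOf_pow_orderOf_div h0 hrg
    have h2 := hq (g ^ (orderOf g / r)) (by rw [h1]; exact hr)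
    rw [h1] at h2
    have := Nat.le_of_dvd (Nat.pos_of_ne_zero hT0) hrT
    omega
  let α : Monoid.End G := φ.toMonoidHom
  have hα : ∀ (j : ℕ) g, (α ^ j) g = (φ ^ j) g := by
    intro j g
    induction j with
    | zero => rfl
    | succ j ih =>
      rw [pow_succ', pow_succ']
      show α ((α ^ j) g) = φ ((φ ^ j) g)
      rw [ih]
      rfl
  have hk : α ^ p ^ n = 1 := by
    apply MonoidHom.ext
    intro g
    have := hα (p ^ n) g
    rw [hφ] at this
    exact this
  apply h G α (Subgroup.nilpotent_iff_lowerCentralSeries.mp hG) hk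
  · apply norm_of_fpf hG α _ (pow_ne_zero _ hp.ne_zero) hk hf
    intro g
    obtain ⟨e, he1, he2⟩ := he g
    exact ⟨e, Nat.Coprime.pow_right _ (he1.coprime_dvd_right (Dvd.intro_left _ rfl)), he2⟩
  · intro g
    obtain ⟨e, he1, he2⟩ := he g
    exact ⟨e, he1.coprime_dvd_right (Dvd.intro _ rfl), he2⟩

end Pool.Agent.Lib.MP_dd8a4a_al
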